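import Mathlib

set_option autoImplicit false

namespace Pool.Agent.Lib.MP_17aaef_lc

open Set Cardinal Ordinal

universe u

namespace Guess

section closure

variable {W : Type u} [LinearOrder W] [WellFoundedLT W]

/-- The closure points of a function. -/
def Cl (φ : W → W) : Set W := {δ | ∀ a < δ, φ a < δ}

omit [WellFoundedLT W] in
theorem Cl_anti {φ ψ : W → W} (h : ∀ a, φ a ≤ ψ a) : Cl ψ ⊆ Cl φ :=
  fun _ hδ a ha => (h a).trans_lt (hδ a ha)

/-- The greatest closure point below or equal to `a`. -/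
noncomputable def prv (φ : W → W) (a : W) : W :=
  (wellFounded_lt : WellFounded ((· < ·) : W → W → Prop)).min
    {b | ∀ δ ∈ Cl φ, δ ≤ a → δ ≤ b} ⟨a, fun _ _ h => h⟩

theorem le_prv {φ : W → W} {a δ : W} (hδ : δ ∈ Cl φ) (h : δ ≤ a) : δ ≤ prv φ a :=
  WellFounded.min_mem (wellFounded_lt : WellFounded ((· < ·) : W → W → Prop))
    {b | ∀ δ ∈ Cl φ, δ ≤ a → δ ≤ b} ⟨a, fun _ _ h => h⟩ δ hδ h

theorem prv_le (φ : W → W) (a : W) : prv φ a ≤ a :=
  WellFounded.min_le (wellFounded_lt : WellFounded ((· < ·) : W → W → Prop))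
    (show a ∈ {b | ∀ δ ∈ Cl φ, δ ≤ a → δ ≤ b} from fun _ _ h => h)

theorem prv_mem (φ : W → W) (a : W) : prv φ a ∈ Cl φ := by
  intro b hb
  have h1 : b ∉ {b | ∀ δ ∈ Cl φ, δ ≤ a → δ ≤ b} := by
    intro hmem
    exact absurd (WellFounded.min_le (wellFounded_lt : WellFounded ((· < ·) : W → W → Prop)) hmem)
      (not_le.2 hb)
  simp only [mem_ofPred_eq] at h1
  push Not at h1
  obtain ⟨δ, hδ, hδa, hbδ⟩ := h1
  exact (hδ b hbδ).trans_le (le_prv hδ hδa)

theorem prv_anti {φ ψ : W → W} (h : ∀ a, φ a ≤ ψ a) (a : W) : prv ψ a ≤ prv φ a :=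
  le_prv (Cl_anti h (prv_mem ψ a)) (prv_le ψ a)

/-- `g` is a strictly increasing sequence with supremum `δ`. -/
def Reach {T : Type u} [LinearOrder T] (δ : W) (g : T → W) : Prop :=
  StrictMono g ∧ (∀ t, g t < δ) ∧ ∀ b < δ, ∃ t, b < g t

end closure

theorem bdd {lam : Cardinal.{u}} (hlam : lam.IsRegular) {ι : Type u} (hι : #ι < lam)
    (f : ι → lam.ord.ToType) : ∃ b, ∀ i, f i < b := by
  have h1 : ¬ IsCofinal (range f) := by
    intro hcof
    have h2 := Order.cof_le hcof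
    rw [Ordinal.cof_toType, hlam.cof_ord] at h2
    exact absurd (h2.trans mk_range_le) (not_le.2 hι)
  obtain ⟨a, ha⟩ := not_isCofinal_iff.1 h1
  exact ⟨a, fun i => ha _ ⟨i, rfl⟩⟩

theorem exists_lt {lam : Cardinal.{u}} (hlam : lam.IsRegular) (a : lam.ord.ToType) :
    ∃ b, a < b := by
  obtain ⟨b, hb⟩ := bdd hlam (ι := PUnit.{u + 1})
    (by simpa using lt_of_lt_of_le one_lt_aleph0 hlam.aleph0_le) (fun _ => a)
  exact ⟨b, hb PUnit.unit⟩

theorem mk_Iio_lt' {lam : Cardinal.{u}} (a : lam.ord.ToType) : #(Iio a) < lam := by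
  simpa using Cardinal.mk_Iio_lt a (by simp)

theorem mk_Iic_lt' {lam : Cardinal.{u}} (hlam : ℵ₀ ≤ lam) (a : lam.ord.ToType) :
    #(Iic a) < lam := by
  have h1 : Iic a ⊆ insert a (Iio a) := by
    intro j hj
    rcases (mem_Iic.1 hj).eq_or_lt with h | h
    · exact Or.inl h
    · exact Or.inr h
  refine (mk_le_mk_of_subset h1).trans_lt (mk_insert_le.trans_lt ?_)
  exact Cardinal.add_lt_of_lt hlam (mk_Iio_lt' a) (lt_of_lt_of_le one_lt_aleph0 hlam)

/-- The closure points of a function are unbounded. -/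
theorem exists_closure {lam : Cardinal.{u}} (hlam : lam.IsRegular) (h0 : ℵ₀ < lam)
    (φ : lam.ord.ToType → lam.ord.ToType) (b : lam.ord.ToType) : ∃ e ∈ Cl φ, b < e := by
  have h1 : ∀ a : lam.ord.ToType, ∃ c, a < c ∧ ∀ x ≤ a, φ x < c := by
    intro a
    obtain ⟨c, hc⟩ := bdd hlam (mk_Iic_lt' hlam.aleph0_le a) fun x : Iic a => φ x
    obtain ⟨c', hc'⟩ := exists_lt hlam a
    exact ⟨max c c', lt_max_of_lt_right hc', fun x hx => lt_max_of_lt_left (hc ⟨x, hx⟩)⟩
  choose n hn hnφ using h1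
  let e : ℕ → lam.ord.ToType := fun k => n^[k + 1] b
  have he : ∀ k, e (k + 1) = n (e k) := fun k => Function.iterate_succ_apply' n (k + 1) b
  obtain ⟨c, hc⟩ := bdd hlam (ι := ULift.{u} ℕ) (by simpa using h0) fun k => e k.down
  let s : Set lam.ord.ToType := {x | ∀ k, e k ≤ x}
  have hs : s.Nonempty := ⟨c, fun k => (hc ⟨k⟩).le⟩
  let m := (wellFounded_lt : WellFounded ((· < ·) : lam.ord.ToType → lam.ord.ToType → Prop)).min
    s hs
  have hm : ∀ k, e k ≤ m := WellFounded.min_mem _ s hs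
  have hmin : ∀ x < m, ∃ k, x < e k := by
    intro x hx
    by_contra hcon
    push Not at hcon
    exact absurd (WellFounded.min_le
      (wellFounded_lt : WellFounded ((· < ·) : lam.ord.ToType → lam.ord.ToType → Prop))
      (show x ∈ s from hcon)) (not_le.2 hx)
  have hlt : ∀ k, e k < m := fun k => (hn (e k)).trans_le (he k ▸ hm (k + 1))
  refine ⟨m, fun a ha => ?_, ?_⟩
  · obtain ⟨k, hk⟩ := hmin a ha
    have h2 : φ a < e (k + 1) := by
      rw [he]
      exact hnφ _ a hk.le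
    exact h2.trans (hlt _)
  · have h2 : b < e 0 := hn b
    exact h2.trans (hlt 0)

/-- Points of cofinality `θ` which are limits of closure points. -/
theorem exists_reach {lam θ : Cardinal.{u}} (hlam : lam.IsRegular) (hθ : θ.IsRegular)
    (hlt : θ < lam) (φ : lam.ord.ToType → lam.ord.ToType) :
    ∃ (δ : lam.ord.ToType) (g : θ.ord.ToType → lam.ord.ToType), Reach δ g ∧ ∀ t, g t ∈ Cl φ := by
  classical
  have h0 : ℵ₀ < lam := hθ.aleph0_le.trans_lt hlt
  have hT : ∀ t : θ.ord.ToType, #(Iio t) < lam := fun t => (mk_Iio_lt' t).trans hlt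
  have hstep : ∀ (t : θ.ord.ToType) (prev : ∀ s, s < t → lam.ord.ToType),
      ∃ e ∈ Cl φ, ∀ s (hs : s < t), prev s hs < e := by
    intro t prev
    obtain ⟨b, hb⟩ := bdd hlam (hT t) fun s : Iio t => prev s.1 s.2
    obtain ⟨e, he, hbe⟩ := exists_closure hlam h0 φ b
    exact ⟨e, he, fun s hs => (hb ⟨s, hs⟩).trans hbe⟩
  choose st hst hst' using hstep
  let g : θ.ord.ToType → lam.ord.ToType :=
    (wellFounded_lt : WellFounded ((· < ·) : θ.ord.ToType → θ.ord.ToType → Prop)).fix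
      (fun t prev => st t prev)
  have hg : ∀ t, g t = st t fun s _ => g s := fun t =>
    WellFounded.fix_eq _ _ t
  have hgm : StrictMono g := by
    intro s t hs
    rw [hg t]
    exact hst' t (fun s _ => g s) s hs
  have hgC : ∀ t, g t ∈ Cl φ := fun t => by
    rw [hg t]
    exact hst t _
  obtain ⟨c, hc⟩ := bdd hlam (by rw [mk_ord_toType]; exact hlt) g
  let s : Set lam.ord.ToType := {x | ∀ t, g t ≤ x}
  have hs : s.Nonempty := ⟨c, fun k => (hc k).le⟩
  let m := (wellFounded_lt : WellFounded ((· < ·) : lam.ord.ToType → lam.ord.ToType → Prop)).min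
    s hs
  have hm : ∀ k, g k ≤ m := WellFounded.min_mem _ s hs
  have hmin : ∀ x < m, ∃ k, x < g k := by
    intro x hx
    by_contra hcon
    push Not at hcon
    exact absurd (WellFounded.min_le
      (wellFounded_lt : WellFounded ((· < ·) : lam.ord.ToType → lam.ord.ToType → Prop))
      (show x ∈ s from hcon)) (not_le.2 hx)
  refine ⟨m, g, ⟨hgm, fun t => ?_, hmin⟩, hgC⟩
  obtain ⟨t', ht'⟩ := exists_lt hθ t
  exact (hgm ht').trans_le (hm t')

/-- Club guessing (Shelah): for regular `θ` with `θ⁺ < λ` regular there are sequences `g δ`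
converging to the points `δ` of cofinality `θ` and a function `φ` such that for every function `ψ`
there is a limit `δ` of closure points of `φ` for which the greatest closure points of `φ` below
the `g δ t` are closure points of `ψ`. -/
theorem guess {lam θ : Cardinal.{u}} (hlam : lam.IsRegular) (hθ : θ.IsRegular)
    (hlt : Order.succ θ < lam) :
    ∃ (φ : lam.ord.ToType → lam.ord.ToType) (g : lam.ord.ToType → θ.ord.ToType → lam.ord.ToType),
      ∀ ψ : lam.ord.ToType → lam.ord.ToType, ∃ δ, Reach δ (g δ) ∧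
        (∀ b < δ, ∃ e ∈ Cl φ, b < e ∧ e < δ) ∧ ∀ t, prv φ (g δ t) ∈ Cl ψ := by
  classical
  have hθlam : θ < lam := (Order.lt_succ θ).trans hlt
  have hne : Nonempty lam.ord.ToType := by
    rw [← mk_ne_zero_iff, mk_ord_toType]
    exact (hlam.pos).ne'
  -- sequences
  have hg : ∀ δ : lam.ord.ToType, ∃ g : θ.ord.ToType → lam.ord.ToType,
      (∃ g' : θ.ord.ToType → lam.ord.ToType, Reach δ g') → Reach δ g := by
    intro δ
    by_cases h : ∃ g' : θ.ord.ToType → lam.ord.ToType, Reach δ g'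
    · obtain ⟨g, hg⟩ := h
      exact ⟨g, fun _ => hg⟩
    · exact ⟨fun _ => δ, fun h' => absurd h' h⟩
  choose g hg using hg
  by_contra hcon
  push Not at hcon
  have hcon' : ∀ φ : lam.ord.ToType → lam.ord.ToType, ∃ ψ : lam.ord.ToType → lam.ord.ToType,
      ∀ δ, Reach δ (g δ) → (∀ b < δ, ∃ e ∈ Cl φ, b < e ∧ e < δ) →
        ∃ t, prv φ (g δ t) ∉ Cl ψ := fun φ => hcon φ g
  choose Ψ hΨ using hcon'
  have hreg : (Order.succ θ).IsRegular := isRegular_succ hθ.aleph0_le
  -- the increasing sequence of functions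
  have hstep : ∀ (i : (Order.succ θ).ord.ToType)
      (prev : ∀ j, j < i → lam.ord.ToType → lam.ord.ToType),
      ∃ f : lam.ord.ToType → lam.ord.ToType, ∀ j (hj : j < i) a,
        prev j hj a ≤ f a ∧ Ψ (prev j hj) a ≤ f a := by
    intro i prev
    have h1 : #(Iio i) < lam := (mk_Iio_lt' i).trans hlt
    have h2 : ∀ a, ∃ b, ∀ j (hj : j < i), prev j hj a ≤ b ∧ Ψ (prev j hj) a ≤ b := by
      intro a
      obtain ⟨b, hb⟩ := bdd hlam h1 fun j : Iio i => prev j.1 j.2 a
      obtain ⟨b', hb'⟩ := bdd hlam h1 fun j : Iio i => Ψ (prev j.1 j.2) a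
      exact ⟨max b b', fun j hj => ⟨le_max_of_le_left (hb ⟨j, hj⟩).le,
        le_max_of_le_right (hb' ⟨j, hj⟩).le⟩⟩
    choose f hf using h2
    exact ⟨f, fun j hj a => hf a j hj⟩
  choose st hst using hstep
  let Φ : (Order.succ θ).ord.ToType → lam.ord.ToType → lam.ord.ToType :=
    (wellFounded_lt : WellFounded ((· < ·) :
      (Order.succ θ).ord.ToType → (Order.succ θ).ord.ToType → Prop)).fix
      (fun i prev => st i prev)
  have hΦ : ∀ i, Φ i = st i fun j _ => Φ j := fun i => WellFounded.fix_eq _ _ i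
  have hΦ1 : ∀ i j, j < i → ∀ a, Φ j a ≤ Φ i a := by
    intro i j hj a
    rw [hΦ i]
    exact (hst i (fun j _ => Φ j) j hj a).1
  have hΦ2 : ∀ i j, j < i → ∀ a, Ψ (Φ j) a ≤ Φ i a := by
    intro i j hj a
    rw [hΦ i]
    exact (hst i (fun j _ => Φ j) j hj a).2
  have hinf : ∀ a, ∃ b, ∀ i, Φ i a < b := fun a =>
    bdd hlam (by rw [mk_ord_toType]; exact hlt) fun i => Φ i a
  choose φ hφ using hinf
  obtain ⟨δ, g', hg', hgC⟩ := exists_reach hlam hθ hθlam φ
  have hR : Reach δ (g δ) := hg δ ⟨g', hg'⟩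
  have hlim : ∀ i, ∀ b < δ, ∃ e ∈ Cl (Φ i), b < e ∧ e < δ := by
    intro i b hb
    obtain ⟨t, ht⟩ := hg'.2.2 b hb
    exact ⟨g' t, Cl_anti (fun a => (hφ a i).le) (hgC t), ht, hg'.2.1 t⟩
  -- stabilization
  have hstab : ∀ t : θ.ord.ToType, ∃ i, ∀ j, i ≤ j → prv (Φ j) (g δ t) = prv (Φ i) (g δ t) := by
    intro t
    have hIne : Nonempty (Order.succ θ).ord.ToType := by
      rw [← mk_ne_zero_iff, mk_ord_toType]
      exact (hreg.pos).ne'
    let s : Set lam.ord.ToType := range fun i => prv (Φ i) (g δ t)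
    have hs : s.Nonempty := range_nonempty _
    have hmem := WellFounded.min_mem
      (wellFounded_lt : WellFounded ((· < ·) : lam.ord.ToType → lam.ord.ToType → Prop)) s hs
    obtain ⟨i, hi⟩ := hmem
    refine ⟨i, fun j hj => ?_⟩
    have h1 : prv (Φ j) (g δ t) ≤ prv (Φ i) (g δ t) := by
      rcases hj.eq_or_lt with h | h
      · rw [h]
      · exact prv_anti (hΦ1 j i h) _
    refine le_antisymm h1 ?_
    have h2 := WellFounded.min_le
      (wellFounded_lt : WellFounded ((· < ·) : lam.ord.ToType → lam.ord.ToType → Prop))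
      (show prv (Φ j) (g δ t) ∈ s from ⟨j, rfl⟩)
    simp only at hi
    rw [hi]
    exact h2
  choose i hi using hstab
  obtain ⟨i0, hi0⟩ := bdd hreg (by rw [mk_ord_toType]; exact Order.lt_succ θ) i
  obtain ⟨i1, hi1⟩ := exists_lt hreg i0
  obtain ⟨t, ht⟩ := hΨ (Φ i0) δ hR (hlim i0)
  apply ht
  have h1 : prv (Φ i1) (g δ t) = prv (Φ i0) (g δ t) := by
    rw [hi t i1 ((hi0 t).trans hi1).le, hi t i0 (hi0 t).le]
  rw [← h1]
  exact Cl_anti (hΦ2 i1 i0 hi1) (prv_mem (Φ i1) _)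

/-- A colouring of `λ × λ` with `θ` colours such that every set of size `λ` has, together with
one column, all colours. -/
theorem exists_coloring {lam θ : Cardinal.{u}} (hlam : lam.IsRegular) (hθ : θ.IsRegular)
    (hlt : Order.succ θ < lam) :
    ∃ c : lam.ord.ToType → lam.ord.ToType → θ.ord.ToType, ∀ S : Set lam.ord.ToType,
      lam ≤ #S → ∃ δ, ∀ t, ∃ f ∈ S, c f δ = t := by
  classical
  obtain ⟨φ, g, hguess⟩ := guess hlam hθ hlt
  have hTne : Nonempty θ.ord.ToType := by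
    rw [← mk_ne_zero_iff, mk_ord_toType]
    exact (hθ.pos).ne'
  let P : lam.ord.ToType → Set lam.ord.ToType := fun δ => range fun t => prv φ (g δ t)
  let N : lam.ord.ToType → Set lam.ord.ToType := fun δ =>
    {x | x ∈ P δ ∧ ∃ b < x, ∀ y ∈ P δ, y < x → y ≤ b}
  have hN : ∀ δ, Reach δ (g δ) → (∀ b < δ, ∃ e ∈ Cl φ, b < e ∧ e < δ) → θ ≤ #(N δ) := by
    intro δ hR hlim
    have h1 : ∀ b < δ, ∃ x ∈ N δ, b < x := by
      intro b hb
      obtain ⟨e, he, hbe, heδ⟩ := hlim b hb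
      obtain ⟨t, ht⟩ := hR.2.2 e heδ
      have h2 : b < prv φ (g δ t) := hbe.trans_le (le_prv he ht.le)
      let s : Set lam.ord.ToType := {y | y ∈ P δ ∧ b < y}
      have hs : s.Nonempty := ⟨_, ⟨t, rfl⟩, h2⟩
      have hmem := WellFounded.min_mem
        (wellFounded_lt : WellFounded ((· < ·) : lam.ord.ToType → lam.ord.ToType → Prop)) s hs
      refine ⟨_, ⟨hmem.1, b, hmem.2, fun y hy hyx => ?_⟩, hmem.2⟩
      by_contra hby
      push Not at hby
      exact absurd (WellFounded.min_le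
        (wellFounded_lt : WellFounded ((· < ·) : lam.ord.ToType → lam.ord.ToType → Prop))
        (show y ∈ s from ⟨hy, hby⟩)) (not_le.2 hyx)
    by_contra hcon
    push Not at hcon
    have h2 : ∀ x : N δ, ∃ t, x.1 < g δ t := by
      intro x
      obtain ⟨t, ht⟩ := x.2.1
      refine hR.2.2 x.1 ?_
      rw [← ht]
      exact (prv_le φ _).trans_lt (hR.2.1 t)
    choose τ hτ using h2
    obtain ⟨t0, ht0⟩ := bdd hθ hcon τ
    obtain ⟨x, hx, hx'⟩ := h1 (g δ t0) (hR.2.1 t0)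
    have h3 := (hτ ⟨x, hx⟩).trans (hR.1 (ht0 ⟨x, hx⟩))
    exact absurd (h3.trans hx') (lt_irrefl _)
  have he : ∀ δ, ∃ e : lam.ord.ToType → θ.ord.ToType,
      θ ≤ #(N δ) → ∀ t, ∃ x ∈ N δ, e x = t := by
    intro δ
    by_cases h : θ ≤ #(N δ)
    · have h1 : #(θ.ord.ToType) ≤ #(N δ) := by
        rw [mk_ord_toType]
        exact h
      obtain ⟨⟨j, hj⟩⟩ := (Cardinal.le_def _ _).1 h1
      have hj' : Function.Injective fun t => (j t).1 := Subtype.val_injective.comp hj
      refine ⟨Function.invFun fun t => (j t).1, fun _ t => ⟨(j t).1, (j t).2, ?_⟩⟩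
      exact Function.leftInverse_invFun hj' t
    · exact ⟨fun _ => Classical.arbitrary _, fun h' => absurd h' h⟩
  choose e he using he
  let m : lam.ord.ToType → lam.ord.ToType → lam.ord.ToType := fun δ f =>
    if h : {x | x ∈ P δ ∧ f < x}.Nonempty then
      (wellFounded_lt : WellFounded ((· < ·) : lam.ord.ToType → lam.ord.ToType → Prop)).min
        {x | x ∈ P δ ∧ f < x} h
    else δ
  refine ⟨fun f δ => e δ (m δ f), fun S hS => ?_⟩
  have hψ : ∀ a, ∃ f ∈ S, a < f := by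
    intro a
    by_contra hcon
    push Not at hcon
    have h1 : S ⊆ Iic a := hcon
    exact absurd (hS.trans (mk_le_mk_of_subset h1)) (not_le.2 (mk_Iic_lt' hlam.aleph0_le a))
  choose ψ hψS hψ using hψ
  obtain ⟨δ, hR, hlim, hCl⟩ := hguess ψ
  refine ⟨δ, fun t => ?_⟩
  obtain ⟨x, ⟨hxP, b, hbx, hb⟩, hxt⟩ := he δ (hN δ hR hlim) t
  have hxC : x ∈ Cl ψ := by
    obtain ⟨t', rfl⟩ := hxP
    exact hCl t'
  refine ⟨ψ b, hψS b, ?_⟩
  have h1 : ψ b < x := hxC b hbx
  have hne : {y | y ∈ P δ ∧ ψ b < y}.Nonempty := ⟨x, hxP, h1⟩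
  have h2 : m δ (ψ b) = x := by
    simp only [m]
    rw [dif_pos hne]
    have hmem := WellFounded.min_mem
      (wellFounded_lt : WellFounded ((· < ·) : lam.ord.ToType → lam.ord.ToType → Prop)) _ hne
    have hle := WellFounded.min_le
      (wellFounded_lt : WellFounded ((· < ·) : lam.ord.ToType → lam.ord.ToType → Prop))
      (show x ∈ {y | y ∈ P δ ∧ ψ b < y} from ⟨hxP, h1⟩)
    rcases hle.eq_or_lt with h | h
    · exact h
    · exact absurd ((hb _ hmem.1 h).trans_lt (hψ b)) (not_lt.2 hmem.2.le)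
  change e δ (m δ (ψ b)) = t
  rw [h2]
  exact hxt

end Guess

end Pool.Agent.Lib.MP_17aaef_lc
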