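import Mathlib

set_option autoImplicit false

namespace Pool.Agent.Lib.MP_17aaef_lc

open Set Cardinal MeasureTheory

universe u

/-- The set `A (m 0) × ... × A (m (n-1))` in `E^n = (Fin n → E)`. -/
def box {E : Type u} (A : ℕ → Set E) {n : ℕ} (m : Fin n → ℕ) : Set (Fin n → E) :=
  {x | ∀ i, x i ∈ A (m i)}

/-- `R_n`: the sigma-algebra on `E^n` generated by all products `A (m 0) × ... × A (m (n-1))`. -/
@[reducible] def rectField {E : Type u} (A : ℕ → Set E) (n : ℕ) : MeasurableSpace (Fin n → E) :=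
  MeasurableSpace.generateFrom (range fun m : Fin n → ℕ => box A m)

/-- `pi_n : E^(n+1) → E^n`, deletion of the last coordinate. -/
def dropLast {E : Type u} {n : ℕ} (x : Fin (n + 1) → E) : Fin n → E := fun i => x i.castSucc

/-- The projective classes over the sequence `A`: `projClass A k n` is the family
`P_(k+1)(E^n)` of subsets of `E^n`. -/
def projClass {E : Type u} (A : ℕ → Set E) : ℕ → (n : ℕ) → Set (Set (Fin n → E))
  | 0, n => {T | ∃ S : Set (Fin (n + 1) → E), MeasurableSet[rectField A (n + 1)] S ∧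
      T = dropLast '' S}
  | (k + 1), n => {T | ∃ S ∈ projClass A k (n + 1), T = dropLast '' Sᶜ}

/-- A subset `T` of `E` seen as a subset of `E^1 = (Fin 1 → E)`. -/
def asPower {E : Type u} (T : Set E) : Set (Fin 1 → E) := {x | x 0 ∈ T}

/-- `T ⊆ E` is projective over the sequence `A`. -/
def IsProjective {E : Type u} (A : ℕ → Set E) (T : Set E) : Prop :=
  ∃ k, asPower T ∈ projClass A k 1

/-- Question Q1 on the set `E`. -/
def UlamQuestion (E : Type u) : Prop :=
  ∀ A : ℕ → Set E, ∃ B : ℕ → Set E, ∀ T : Set E, IsProjective A T →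
    MeasurableSet[MeasurableSpace.generateFrom (range B)] T

/-- Question Q1 on the set `E`, asked only for the first projective class `P_1(E)`. -/
def UlamQuestionOne (E : Type u) : Prop :=
  ∀ A : ℕ → Set E, ∃ B : ℕ → Set E, ∀ T : Set E, asPower T ∈ projClass A 0 1 →
    MeasurableSet[MeasurableSpace.generateFrom (range B)] T

/-- Every family of at most continuum many subsets of `E` is contained in a countably generated
sigma-algebra on `E`. -/
def FamilyProperty (E : Type u) : Prop :=
  ∀ H : Set (Set E), #H ≤ 𝔠 → ∃ B : ℕ → Set E, ∀ T ∈ H,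
    MeasurableSet[MeasurableSpace.generateFrom (range B)] T

/-- Every projective class has at most continuum many members. -/
theorem mk_projClass_le {E : Type u} (A : ℕ → Set E) (k : ℕ) :
    ∀ n, #(projClass A k n) ≤ 𝔠 := by
  induction k with
  | zero =>
    intro n
    have h1 : #(range fun m : Fin (n + 1) → ℕ => box A m) ≤ 𝔠 := by
      refine le_trans ?_ aleph0_le_continuum
      exact (countable_range _).le_aleph0
    have h2 : #{t | MeasurableSet[rectField A (n + 1)] t} ≤ 𝔠 :=
      MeasurableSpace.cardinal_measurableSet_le_continuum h1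
    have h3 : projClass A 0 n ⊆
        (fun S : Set (Fin (n + 1) → E) => dropLast '' S) ''
          {t | MeasurableSet[rectField A (n + 1)] t} := by
      rintro T ⟨S, hS, rfl⟩
      exact ⟨S, hS, rfl⟩
    exact (mk_le_mk_of_subset h3).trans (mk_image_le.trans h2)
  | succ k ih =>
    intro n
    have h3 : projClass A (k + 1) n ⊆
        (fun S : Set (Fin (n + 1) → E) => dropLast '' Sᶜ) '' projClass A k (n + 1) := by
      rintro T ⟨S, hS, rfl⟩
      exact ⟨S, hS, rfl⟩
    exact (mk_le_mk_of_subset h3).trans (mk_image_le.trans (ih (n + 1)))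

theorem asPower_injective {E : Type u} : Function.Injective (asPower : Set E → Set (Fin 1 → E)) := by
  intro S T h
  ext x
  have : (fun _ : Fin 1 => x) ∈ asPower S ↔ (fun _ : Fin 1 => x) ∈ asPower T := by rw [h]
  simpa [asPower] using this

/-- There are at most continuum many subsets of `E` projective over a given sequence. -/
theorem mk_isProjective_le {E : Type u} (A : ℕ → Set E) : #{T : Set E | IsProjective A T} ≤ 𝔠 := by
  have h1 : ∀ k, #{T : Set E | asPower T ∈ projClass A k 1} ≤ 𝔠 := by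
    intro k
    refine le_trans ?_ (mk_projClass_le A k 1)
    refine Cardinal.mk_le_of_injective (f := fun T => ⟨asPower T.1, T.2⟩) ?_
    intro S T h
    have := congrArg Subtype.val h
    exact Subtype.ext (asPower_injective this)
  have h2 : {T : Set E | IsProjective A T} = ⋃ k : ℕ, {T : Set E | asPower T ∈ projClass A k 1} := by
    ext T
    simp [IsProjective]
  rw [h2]
  have h3 := Cardinal.mk_iUnion_le_sum_mk_lift
    (f := fun k : ℕ => {T : Set E | asPower T ∈ projClass A k 1})
  rw [Cardinal.lift_uzero] at h3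
  refine h3.trans ?_
  refine (Cardinal.sum_le_sum _ (fun _ => 𝔠) h1).trans ?_
  simp

/-- A bijection-free way to enumerate a nonempty family of at most continuum many sets by the
points of a set of cardinality continuum. -/
theorem exists_enum {E : Type u} (hE : #E = 𝔠) (H : Set (Set E)) (hH : #H ≤ 𝔠)
    (hne : H.Nonempty) : ∃ S : E → Set E, H = range S := by
  have h : #H ≤ #E := by rw [hE]; exact hH
  have : Nonempty H := hne.to_subtype
  obtain ⟨⟨f, hf⟩⟩ := (Cardinal.le_def _ _).1 h
  refine ⟨fun y => (Function.invFun f y : H).1, ?_⟩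
  ext T
  constructor
  · intro hT
    refine ⟨f ⟨T, hT⟩, ?_⟩
    have := Function.leftInverse_invFun hf ⟨T, hT⟩
    simp only
    rw [this]
  · rintro ⟨y, rfl⟩
    exact (Function.invFun f y : H).2

/-- Question Q1 for the class one only implies the family property. -/
theorem family_of_one {E : Type u} (hE : #E = 𝔠) (hQ : UlamQuestionOne E) : FamilyProperty E := by
  intro H hH
  rcases H.eq_empty_or_nonempty with rfl | hne
  · exact ⟨fun _ => ∅, fun T hT => absurd hT (notMem_empty T)⟩
  obtain ⟨S, rfl⟩ := exists_enum hE H hH hne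
  -- an injection of `E` into the Cantor space
  have hinj : ∃ φ : E → (ℕ → Bool), Function.Injective φ := by
    have h : Cardinal.lift.{0} #E ≤ Cardinal.lift.{u} #(ℕ → Bool) := by
      rw [hE]; simp
    obtain ⟨⟨f, hf⟩⟩ := Cardinal.lift_mk_le'.1 h
    exact ⟨f, hf⟩
  obtain ⟨φ, hφ⟩ := hinj
  -- a bijection of `E` with `E ⊕ E × E`
  have hbij : Nonempty (E ≃ E ⊕ E × E) := by
    rw [← Cardinal.eq]
    simp [hE]
  obtain ⟨g⟩ := hbij
  -- the coding sequence
  let 𝔸 : Fin 3 ⊕ (ℕ ⊕ ℕ) → Set E := fun i => match i with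
    | Sum.inl 0 => univ
    | Sum.inl 1 => {e | ∃ x, g e = Sum.inl x}
    | Sum.inl 2 => {e | ∃ x y, g e = Sum.inr (x, y) ∧ x ∈ S y}
    | Sum.inr (Sum.inl i) => {e | (∃ x, g e = Sum.inl x ∧ φ x i = true) ∨
        ∃ x y, g e = Sum.inr (x, y) ∧ φ x i = true}
    | Sum.inr (Sum.inr i) => {e | ∃ x y, g e = Sum.inr (x, y) ∧ φ y i = true}
  obtain ⟨s, hs⟩ := exists_surjective_nat (Fin 3 ⊕ (ℕ ⊕ ℕ))
  let A : ℕ → Set E := fun m => 𝔸 (s m)
  have hbox : ∀ a b : Fin 3 ⊕ (ℕ ⊕ ℕ),
      MeasurableSet[rectField A 2] {x : Fin 2 → E | x 0 ∈ 𝔸 a ∧ x 1 ∈ 𝔸 b} := by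
    intro a b
    obtain ⟨ma, rfl⟩ := hs a
    obtain ⟨mb, rfl⟩ := hs b
    apply MeasurableSpace.measurableSet_generateFrom
    refine ⟨![ma, mb], ?_⟩
    ext x
    simp [box, A, Fin.forall_fin_two]
  have h0 : ∀ a, MeasurableSet[rectField A 2] {x : Fin 2 → E | x 0 ∈ 𝔸 a} := by
    intro a
    have := hbox a (Sum.inl 0)
    simpa [𝔸] using this
  have h1 : ∀ a, MeasurableSet[rectField A 2] {x : Fin 2 → E | x 1 ∈ 𝔸 a} := by
    intro a
    have := hbox (Sum.inl 0) a
    simpa [𝔸] using this
  obtain ⟨B, hB⟩ := hQ A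
  refine ⟨fun n => {x | g.symm (Sum.inl x) ∈ B n}, ?_⟩
  rintro _ ⟨y, rfl⟩
  -- the set to which the hypothesis is applied
  have key : asPower {e | ∃ x, g e = Sum.inl x ∧ x ∈ S y} ∈ projClass A 0 1 := by
    refine ⟨{x | x 0 ∈ 𝔸 (Sum.inl 1)} ∩ {x | x 1 ∈ 𝔸 (Sum.inl 2)} ∩
      (⋂ i : ℕ, {x | x 0 ∈ 𝔸 (Sum.inr (Sum.inl i)) ↔ x 1 ∈ 𝔸 (Sum.inr (Sum.inl i))}) ∩
      (⋂ i : ℕ, {x | x 1 ∈ 𝔸 (Sum.inr (Sum.inr i)) ↔ φ y i = true}), ?_, ?_⟩
    · let _ : MeasurableSpace (Fin 2 → E) := rectField A 2
      refine MeasurableSet.inter (MeasurableSet.inter (MeasurableSet.inter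
        (h0 (Sum.inl 1)) (h1 (Sum.inl 2))) ?_) ?_
      · refine MeasurableSet.iInter fun i => ?_
        exact (h0 (Sum.inr (Sum.inl i))).iff (h1 (Sum.inr (Sum.inl i)))
      · refine MeasurableSet.iInter fun i => ?_
        exact (h1 (Sum.inr (Sum.inr i))).iff (MeasurableSet.const _)
    · ext x
      constructor
      · rintro ⟨a, ha, haS⟩
        refine ⟨![x 0, g.symm (Sum.inr (a, y))], ⟨⟨⟨⟨a, by simpa using ha⟩, ?_⟩, ?_⟩, ?_⟩, ?_⟩
        · exact ⟨a, y, by simp, haS⟩
        · simp only [mem_iInter]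
          intro i
          simp [𝔸, ha]
        · simp only [mem_iInter]
          intro i
          simp [𝔸]
        · ext j
          obtain rfl : j = 0 := Subsingleton.elim _ _
          simp [dropLast]
      · rintro ⟨z, ⟨⟨⟨⟨a, ha⟩, ⟨b, c, hb, hbc⟩⟩, hx⟩, hy⟩, rfl⟩
        refine ⟨a, ?_, ?_⟩
        · simpa [dropLast] using ha
        · have hab : φ a = φ b := by
            ext i
            have := (mem_iInter.1 hx) i
            simp only [𝔸, mem_ofPred_eq, ha, hb] at this
            simpa using this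
          have hcy : φ c = φ y := by
            ext i
            have := (mem_iInter.1 hy) i
            simp only [𝔸, mem_ofPred_eq, hb] at this
            simpa using this
          rw [hφ hab, ← hφ hcy]
          exact hbc
  have hm := hB _ key
  have hmeas : @Measurable E E
      (MeasurableSpace.generateFrom (range fun n => {x | g.symm (Sum.inl x) ∈ B n}))
      (MeasurableSpace.generateFrom (range B)) (fun x => g.symm (Sum.inl x)) := by
    refine @measurable_generateFrom _ _ (_) _ _ ?_
    rintro _ ⟨n, rfl⟩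
    exact MeasurableSpace.measurableSet_generateFrom ⟨n, rfl⟩
  have := hmeas hm
  convert this using 1
  ext x
  simp

/-- The family property implies Q1. -/
theorem question_of_family {E : Type u} (h : FamilyProperty E) : UlamQuestion E := by
  intro A
  obtain ⟨B, hB⟩ := h {T | IsProjective A T} (mk_isProjective_le A)
  exact ⟨B, fun T hT => hB T hT⟩

/-- Q1 implies its restriction to class one. -/
theorem one_of_question {E : Type u} (h : UlamQuestion E) : UlamQuestionOne E := by
  intro A
  obtain ⟨B, hB⟩ := h A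
  exact ⟨B, fun T hT => hB T ⟨0, hT⟩⟩

end Pool.Agent.Lib.MP_17aaef_lc
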