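import Mathlib
import Pool.Agent.Lib.MP_17aaef_lc.Basic

set_option autoImplicit false

namespace Pool.Agent.Lib.MP_17aaef_lc

open Set Cardinal Ordinal MeasureTheory MeasurableSpace

universe u v w

/-- The sigma-algebra on `X × Y` generated by all abstract rectangles `S × T`. -/
@[reducible] def rectAlgebra (X Y : Type u) : MeasurableSpace (X × Y) :=
  MeasurableSpace.generateFrom {W | ∃ (S : Set X) (T : Set Y), W = S ×ˢ T}

/-- The family `F` of subsets of `X`, indexed by `Y`, has its universal set in the sigma-algebra of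
abstract rectangles. -/
def Rect {X Y : Type u} (F : Y → Set X) : Prop :=
  MeasurableSet[rectAlgebra X Y] {p : X × Y | p.1 ∈ F p.2}

section basics

variable {X Y X' Y' : Type u}

theorem measurableSet_rect (S : Set X) (T : Set Y) :
    MeasurableSet[rectAlgebra X Y] (S ×ˢ T) :=
  MeasurableSpace.measurableSet_generateFrom ⟨S, T, rfl⟩

theorem measurable_rectMap (f : X' → X) (g : Y' → Y) :
    @Measurable _ _ (rectAlgebra X' Y') (rectAlgebra X Y) (Prod.map f g) := by
  refine @measurable_generateFrom _ _ (_) _ _ ?_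
  rintro _ ⟨S, T, rfl⟩
  exact MeasurableSpace.measurableSet_generateFrom ⟨f ⁻¹' S, g ⁻¹' T, rfl⟩

theorem measurable_rectSwap :
    @Measurable _ _ (rectAlgebra X Y) (rectAlgebra Y X) Prod.swap := by
  refine @measurable_generateFrom _ _ (_) _ _ ?_
  rintro _ ⟨S, T, rfl⟩
  refine MeasurableSpace.measurableSet_generateFrom ⟨T, S, ?_⟩
  ext ⟨x, y⟩
  simp

theorem Rect.comap {F : Y → Set X} (hF : Rect F) (f : X' → X) (g : Y' → Y) :
    Rect fun y => f ⁻¹' F (g y) :=
  measurable_rectMap f g hF

theorem Rect.reindex {F : Y → Set X} (hF : Rect F) (g : Y' → Y) : Rect fun y => F (g y) :=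
  hF.comap id g

theorem Rect.swap {F : Y → Set X} (hF : Rect F) : Rect fun x => {y | x ∈ F y} :=
  measurable_rectSwap hF

theorem Rect.compl {F : Y → Set X} (hF : Rect F) : Rect fun y => (F y)ᶜ := by
  let _ : MeasurableSpace (X × Y) := rectAlgebra X Y
  exact MeasurableSet.compl hF

theorem Rect.iUnion {ι : Type v} [Countable ι] {F : ι → Y → Set X} (hF : ∀ i, Rect (F i)) :
    Rect fun y => ⋃ i, F i y := by
  let _ : MeasurableSpace (X × Y) := rectAlgebra X Y
  have : {p : X × Y | p.1 ∈ ⋃ i, F i p.2} = ⋃ i, {p : X × Y | p.1 ∈ F i p.2} := by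
    ext p; simp
  unfold Rect
  rw [this]
  exact MeasurableSet.iUnion fun i => hF i

theorem Rect.iInter {ι : Type v} [Countable ι] {F : ι → Y → Set X} (hF : ∀ i, Rect (F i)) :
    Rect fun y => ⋂ i, F i y := by
  have := (Rect.iUnion fun i => (hF i).compl).compl
  simpa using this

theorem Rect.inter {F G : Y → Set X} (hF : Rect F) (hG : Rect G) : Rect fun y => F y ∩ G y := by
  let _ : MeasurableSpace (X × Y) := rectAlgebra X Y
  exact MeasurableSet.inter hF hG

theorem Rect.union {F G : Y → Set X} (hF : Rect F) (hG : Rect G) : Rect fun y => F y ∪ G y := by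
  let _ : MeasurableSpace (X × Y) := rectAlgebra X Y
  exact MeasurableSet.union hF hG

theorem rect_prod (S : Set X) (T : Set Y) : Rect fun y => {x | x ∈ S ∧ y ∈ T} :=
  measurableSet_rect S T

theorem rect_strip (T : Set Y) : Rect fun y => {_x : X | y ∈ T} := by
  have := rect_prod (univ : Set X) T
  simpa using this

theorem rect_empty : Rect fun _ : Y => (∅ : Set X) := by
  have := rect_prod (∅ : Set X) (∅ : Set Y)
  simpa using this

/-- Countable partitions of the index set. -/
theorem rect_of_pieces {ι : Type v} [Countable ι] {F : Y → Set X} (T : ι → Set Y)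
    (hT : ∀ y, ∃ i, y ∈ T i) (h : ∀ i, Rect fun y : T i => F y) : Rect F := by
  classical
  have key : ∀ i, Rect fun y : Y => {x | x ∈ F y ∧ y ∈ T i} := by
    intro i
    rcases (T i).eq_empty_or_nonempty with he | ⟨y0, hy0⟩
    · have : (fun y : Y => {x | x ∈ F y ∧ y ∈ T i}) = fun _ => (∅ : Set X) := by
        funext y; simp [he]
      rw [this]
      exact rect_empty
    · let r : Y → T i := fun y => if h : y ∈ T i then ⟨y, h⟩ else ⟨y0, hy0⟩
      have h1 := ((h i).reindex r).inter (rect_strip (X := X) (T i))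
      convert h1 using 2 with y
      ext x
      constructor
      · rintro ⟨hx, hy⟩
        refine ⟨?_, hy⟩
        simpa [r, hy] using hx
      · rintro ⟨hx, hy⟩
        have hy' : y ∈ T i := hy
        refine ⟨?_, hy'⟩
        simpa [r, hy'] using hx
  have h2 := Rect.iUnion key
  convert h2 using 2 with y
  ext x
  simp only [mem_iUnion, mem_ofPred_eq]
  constructor
  · intro hx
    obtain ⟨i, hi⟩ := hT y
    exact ⟨i, hx, hi⟩
  · rintro ⟨i, hx, _⟩
    exact hx

theorem rect_of_countable [Countable Y] (F : Y → Set X) : Rect F := by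
  refine rect_of_pieces (fun y : Y => {y}) (fun y => ⟨y, rfl⟩) fun y => ?_
  have := rect_prod (F y) (univ : Set ({y} : Set Y))
  convert this using 2 with z
  ext x
  have : (z : Y) = y := z.2
  simp [this]

/-- Graphs of functions into a set of size at most continuum. -/
theorem rect_graph (hX : #X ≤ 𝔠) (g : Y → X) : Rect fun y => ({g y} : Set X) := by
  have hinj : ∃ φ : X → (ℕ → Bool), Function.Injective φ := by
    have h : Cardinal.lift.{0} #X ≤ Cardinal.lift.{u} #(ℕ → Bool) := by
      simpa using hX
    obtain ⟨⟨f, hf⟩⟩ := Cardinal.lift_mk_le'.1 h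
    exact ⟨f, hf⟩
  obtain ⟨φ, hφ⟩ := hinj
  have h1 : ∀ n : ℕ, Rect fun y : Y => {x | φ x n = φ (g y) n} := by
    intro n
    have := (rect_prod {x | φ x n = true} {y : Y | φ (g y) n = true}).union
      (rect_prod {x | φ x n = false} {y : Y | φ (g y) n = false})
    convert this using 2 with y
    ext x
    simp only [mem_ofPred_eq, mem_union]
    cases φ x n <;> cases φ (g y) n <;> simp
  have h2 := Rect.iInter h1
  convert h2 using 2 with y
  ext x
  simp only [mem_singleton_iff, mem_iInter, mem_ofPred_eq]
  constructor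
  · rintro rfl n
    rfl
  · intro h
    exact hφ (funext h)

end basics

end Pool.Agent.Lib.MP_17aaef_lc
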