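import Mathlib
import Pool.Agent.Lib.MP_17aaef_lc.Rect

set_option autoImplicit false

namespace Pool.Agent.Lib.MP_17aaef_lc

open Set Cardinal Ordinal MeasureTheory MeasurableSpace

universe u v w

theorem countable_Iio_of_lt_omega_one {i : Ordinal.{v}} (hi : i < ω₁) : (Iio i).Countable := by
  rw [← Cardinal.le_aleph0_iff_set_countable, Cardinal.mk_Iio_ordinal]
  rw [← Cardinal.lift_aleph0.{v + 1, v}, Cardinal.lift_le]
  rw [← Cardinal.ord_aleph, Cardinal.lt_ord] at hi
  rw [← Cardinal.aleph_zero]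
  have : (ℵ_ 1 : Cardinal.{v}) = Order.succ (ℵ_ 0) := by
    rw [Cardinal.succ_aleph]
    simp
  rw [this] at hi
  exact Order.lt_succ_iff.1 hi

theorem rec_mono_left {X : Type u} {s t : Set (Set X)} (h : s ⊆ t) (i : Ordinal.{v}) :
    generateMeasurableRec s i ⊆ generateMeasurableRec t i := by
  induction i using WellFoundedLT.induction with
  | ind i IH =>
  intro x hx
  rw [generateMeasurableRec] at hx
  rcases hx with ((hx | hx) | hx) | hx
  · exact self_subset_generateMeasurableRec t i (h hx)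
  · rw [mem_singleton_iff] at hx
    rw [hx]
    exact empty_mem_generateMeasurableRec t i
  · obtain ⟨U, hU, rfl⟩ := hx
    obtain ⟨j, hj, hU'⟩ := mem_iUnion₂.1 hU
    exact compl_mem_generateMeasurableRec hj (IH j hj hU')
  · obtain ⟨f, rfl⟩ := hx
    refine iUnion_mem_generateMeasurableRec fun n => ?_
    obtain ⟨j, hj, hj'⟩ := mem_iUnion₂.1 (f n).2
    exact ⟨j, hj, IH j hj hj'⟩

/-- Sets of bounded Borel rank over rectangular families form rectangular families. -/
theorem rect_of_rank {X : Type u} (i : Ordinal.{v}) (hi : i < ω₁) :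
    ∀ (Y : Type u) (B : Y → ℕ → Set X), (∀ n, Rect fun y => B y n) → ∀ S : Y → Set X,
      (∀ y, S y ∈ generateMeasurableRec (range (B y)) i) → Rect S := by
  classical
  induction i using WellFoundedLT.induction with
  | ind i IH =>
  intro Y B hB S hS
  have hcount : Countable (Iio i) := (countable_Iio_of_lt_omega_one hi).to_subtype
  let T : ((ℕ ⊕ Unit) ⊕ (Iio i ⊕ Unit)) → Set Y := fun k => match k with
    | Sum.inl (Sum.inl n) => {y | S y = B y n}
    | Sum.inl (Sum.inr _) => {y | S y = ∅}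
    | Sum.inr (Sum.inl j) => {y | ∃ U ∈ generateMeasurableRec (range (B y)) j.1, S y = Uᶜ}
    | Sum.inr (Sum.inr _) => {y | ∃ f : ℕ → Set X,
        (∀ n, ∃ j < i, f n ∈ generateMeasurableRec (range (B y)) j) ∧ S y = ⋃ n, f n}
  refine rect_of_pieces T ?_ ?_
  · intro y
    have hSy := hS y
    rw [generateMeasurableRec] at hSy
    rcases hSy with ((h | h) | h) | h
    · obtain ⟨n, hn⟩ := h
      exact ⟨Sum.inl (Sum.inl n), hn.symm⟩
    · exact ⟨Sum.inl (Sum.inr ()), h⟩
    · obtain ⟨U, hU, hU'⟩ := h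
      obtain ⟨j, hj, hUj⟩ := mem_iUnion₂.1 hU
      exact ⟨Sum.inr (Sum.inl ⟨j, hj⟩), U, hUj, hU'.symm⟩
    · obtain ⟨f, hf⟩ := h
      refine ⟨Sum.inr (Sum.inr ()), fun n => (f n).1, fun n => ?_, hf.symm⟩
      obtain ⟨j, hj, hj'⟩ := mem_iUnion₂.1 (f n).2
      exact ⟨j, hj, hj'⟩
  · rintro ((n | _) | (j | _))
    · have h1 := (hB n).reindex (fun y : T (Sum.inl (Sum.inl n)) => (y : Y))
      convert h1 using 2 with y
      exact y.2
    · have h1 : Rect fun _ : T (Sum.inl (Sum.inr ())) => (∅ : Set X) := rect_empty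
      convert h1 using 2 with y
      exact y.2
    · have hch : ∀ y : T (Sum.inr (Sum.inl j)),
          ∃ U ∈ generateMeasurableRec (range (B y)) j.1, S y = Uᶜ := fun y => y.2
      choose U hU hU' using hch
      have h1 := IH j.1 j.2 (lt_trans j.2 hi) (T (Sum.inr (Sum.inl j))) (fun y => B y)
        (fun n => (hB n).reindex _) U hU
      convert h1.compl using 2 with y
      exact hU' y
    · have hch : ∀ y : T (Sum.inr (Sum.inr ())), ∃ f : ℕ → Set X,
        (∀ n, ∃ j < i, f n ∈ generateMeasurableRec (range (B y)) j) ∧ S y = ⋃ n, f n :=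
        fun y => y.2
      choose f hf hf' using hch
      have h1 : ∀ n, Rect fun y : T (Sum.inr (Sum.inr ())) => f y n := by
        intro n
        refine rect_of_pieces (fun j : Iio i =>
          {y | f y n ∈ generateMeasurableRec (range (B y)) j.1}) ?_ ?_
        · intro y
          obtain ⟨j, hj, hj'⟩ := hf y n
          exact ⟨⟨j, hj⟩, hj'⟩
        · intro j
          exact IH j.1 j.2 (lt_trans j.2 hi) _
            (fun y : {y : T (Sum.inr (Sum.inr ())) |
              f y n ∈ generateMeasurableRec (range (B y)) j.1} => B y)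
            (fun n => (hB n).reindex _) _ (fun y => y.2)
      convert Rect.iUnion h1 using 2 with y
      exact hf' y

/-- A rectangular family has bounded Borel rank over one countable family. -/
theorem Rect.exists_rank {X Y : Type u} {F : Y → Set X} (hF : Rect F) :
    ∃ B : ℕ → Set X, ∃ i : Ordinal.{v}, i < ω₁ ∧
      ∀ y, F y ∈ generateMeasurableRec (range B) i := by
  have key : ∀ W : Set (X × Y), MeasurableSet[rectAlgebra X Y] W →
      ∃ B : ℕ → Set X, ∃ i : Ordinal.{v}, i < ω₁ ∧
        ∀ y, {x | (x, y) ∈ W} ∈ generateMeasurableRec (range B) i := by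
    intro W hW
    induction W, hW using MeasurableSpace.generateFrom_induction with
    | hC W hW _ =>
      obtain ⟨S, T, rfl⟩ := hW
      refine ⟨fun _ => S, 0, omega_pos 1, fun y => ?_⟩
      by_cases hy : y ∈ T
      · refine self_subset_generateMeasurableRec _ _ ⟨0, ?_⟩
        ext x
        simp [hy]
      · have : {x | (x, y) ∈ S ×ˢ T} = ∅ := by
          ext x
          simp [hy]
        rw [this]
        exact empty_mem_generateMeasurableRec _ _
    | empty =>
      refine ⟨fun _ => ∅, 0, omega_pos 1, fun y => ?_⟩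
      simpa using empty_mem_generateMeasurableRec _ _
    | compl W _ IH =>
      obtain ⟨B, i, hi, h⟩ := IH
      exact ⟨B, Order.succ i, (isSuccLimit_omega 1).succ_lt hi, fun y =>
        compl_mem_generateMeasurableRec (Order.lt_succ i) (h y)⟩
    | iUnion W _ IH =>
      choose B i hi h using IH
      refine ⟨fun k => B (Nat.unpair k).1 (Nat.unpair k).2, ⨆ n, (i n + 1), ?_, fun y => ?_⟩
      · exact Ordinal.lift_iSup_add_one_lt_of_lt_cof (by simp) fun n => hi n
      · have h1 : {x | (x, y) ∈ ⋃ n, W n} = ⋃ n, {x | (x, y) ∈ W n} := by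
          ext x
          simp
        rw [h1]
        refine iUnion_mem_generateMeasurableRec fun n => ⟨i n, Ordinal.lt_iSup_add_one i n, ?_⟩
        refine rec_mono_left ?_ _ (h n y)
        rintro _ ⟨m, rfl⟩
        exact ⟨Nat.pair n m, by simp⟩
  obtain ⟨B, i, hi, h⟩ := key _ hF
  exact ⟨B, i, hi, h⟩

/-- The family property, with ranks, for all sets of size at most continuum. -/
theorem exists_rank_of_family {E : Type u} (hE : #E = 𝔠) (h : FamilyProperty E) {X Y : Type u}
    (hX : #X ≤ 𝔠) (hY : #Y ≤ 𝔠) (F : Y → Set X) :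
    ∃ (B : ℕ → Set X) (r : Y → Ordinal.{u}), (∀ y, r y < ω₁) ∧
      ∀ y, F y ∈ generateMeasurableRec (range B) (r y) := by
  obtain ⟨⟨φ, hφ⟩⟩ := (Cardinal.le_def _ _).1 (hX.trans_eq hE.symm)
  obtain ⟨B, hB⟩ := h (range fun y => φ '' F y) (mk_range_le.trans hY)
  have h1 : ∀ y, MeasurableSet[MeasurableSpace.generateFrom (range fun n => φ ⁻¹' B n)] (F y) := by
    intro y
    have hmeas : @Measurable X E (MeasurableSpace.generateFrom (range fun n => φ ⁻¹' B n))
        (MeasurableSpace.generateFrom (range B)) φ := by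
      refine @measurable_generateFrom _ _ (_) _ _ ?_
      rintro _ ⟨n, rfl⟩
      exact MeasurableSpace.measurableSet_generateFrom ⟨n, rfl⟩
    have := hmeas (hB _ ⟨y, rfl⟩)
    rwa [preimage_image_eq _ hφ] at this
  have h2 : ∀ y, ∃ i : Ordinal.{u}, i < ω₁ ∧
      F y ∈ generateMeasurableRec (range fun n => φ ⁻¹' B n) i := by
    intro y
    have h3 : F y ∈ {t | MeasurableSpace.GenerateMeasurable (range fun n => φ ⁻¹' B n) t} := h1 y
    rw [MeasurableSpace.generateMeasurable_eq_rec.{u, u},
      MeasurableSpace.generateMeasurableRec_omega_one] at h3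
    obtain ⟨j, hj, hy⟩ := mem_iUnion₂.1 h3
    exact ⟨j, hj, hy⟩
  choose r hr hr' using h2
  exact ⟨_, r, hr, hr'⟩

/-- Rectangularity gives back the family property. -/
theorem family_of_rect {E : Type u} (hE : #E = 𝔠) (h : ∀ F : E → Set E, Rect F) :
    FamilyProperty E := by
  intro H hH
  rcases H.eq_empty_or_nonempty with rfl | hne
  · exact ⟨fun _ => ∅, fun T hT => absurd hT (notMem_empty T)⟩
  obtain ⟨S, rfl⟩ := exists_enum hE H hH hne
  obtain ⟨B, i, -, hB⟩ := Rect.exists_rank.{u, u} (h S)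
  refine ⟨B, ?_⟩
  rintro _ ⟨y, rfl⟩
  exact generateMeasurableRec_subset _ _ (hB y)

/-- Pigeonhole principle for countable ordinals. -/
theorem exists_large_fibre {Y : Type u} {κ : Cardinal.{u}} (hκ : κ.IsRegular) (h1 : ℵ₁ < κ)
    (hY : κ ≤ #Y) (r : Y → Ordinal.{u}) (hr : ∀ y, r y < ω₁) :
    ∃ i : Ordinal.{u}, i < ω₁ ∧ κ ≤ #{y | r y = i} := by
  let f : Y → (ω₁ : Ordinal.{u}).ToType := fun y => ToType.mk ⟨r y, hr y⟩
  obtain ⟨a, ha⟩ := infinite_pigeonhole_card f κ hY hκ.aleph0_le (by
    rw [hκ.cof_ord]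
    simpa using h1)
  refine ⟨(ToType.toOrd a).1, (ToType.toOrd a).2, ha.trans (mk_le_mk_of_subset ?_)⟩
  intro y hy
  have : f y = a := hy
  rw [mem_ofPred_eq, ← this]
  simp [f]

/-- Under the family property every family indexed by a set of regular size above `ℵ₁` is
rectangular on an index set of full size. -/
theorem exists_large_rect {E : Type u} (hE : #E = 𝔠) (h : FamilyProperty E) {X Y : Type u}
    (hX : #X ≤ 𝔠) (hY : #Y ≤ 𝔠) {κ : Cardinal.{u}} (hκ : κ.IsRegular) (h1 : ℵ₁ < κ)
    (hκY : κ ≤ #Y) (F : Y → Set X) :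
    ∃ S : Set Y, κ ≤ #S ∧ Rect fun y : S => F y := by
  obtain ⟨B, r, hr, hB⟩ := exists_rank_of_family hE h hX hY F
  obtain ⟨i, hi, hS⟩ := exists_large_fibre hκ h1 hκY r hr
  refine ⟨_, hS, rect_of_rank i hi _ (fun _ => B) (fun n => ?_) _ fun y => ?_⟩
  · have := rect_prod (B n) (univ : Set {y | r y = i})
    simpa using this
  · have := hB y
    have h2 : r y = i := y.2
    rwa [h2] at this

end Pool.Agent.Lib.MP_17aaef_lc
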