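import Mathlib
import Pool.Agent.Lib.MP_17aaef_lc.Rank

set_option autoImplicit false

namespace Pool.Agent.Lib.MP_17aaef_lc

open Set Cardinal Ordinal MeasureTheory MeasurableSpace

universe u v w

/-- Every family with at most `κ` indices of subsets of a set of size at most continuum is
rectangular. -/
def AllRect (κ : Cardinal.{u}) : Prop :=
  ∀ X Y : Type u, #X ≤ 𝔠 → #Y ≤ κ → ∀ F : Y → Set X, Rect F

theorem AllRect.mono {κ μ : Cardinal.{u}} (h : AllRect μ) (hκ : κ ≤ μ) : AllRect κ :=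
  fun X Y hX hY F => h X Y hX (hY.trans hκ) F

theorem rect_of_embedding {X Y Z : Type u} (hYZ : #Y ≤ #Z) (h : ∀ F : Z → Set X, Rect F)
    (F : Y → Set X) : Rect F := by
  obtain ⟨⟨j, hj⟩⟩ := (Cardinal.le_def _ _).1 hYZ
  have := (h fun z => {x | ∃ y, j y = z ∧ x ∈ F y}).reindex j
  convert this using 2 with y
  ext x
  constructor
  · intro hx
    exact ⟨y, rfl, hx⟩
  · rintro ⟨y', hy', hx⟩
    rwa [hj hy'] at hx

theorem rect_const {X Y : Type u} (S : Set X) : Rect fun _ : Y => S := by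
  have := rect_prod S (univ : Set Y)
  simpa using this

/-- A family of countable sets is rectangular. -/
theorem rect_of_countable_sections {X Y : Type u} (hX : #X ≤ 𝔠) (G : Y → Set X)
    (hG : ∀ y, (G y).Countable) : Rect G := by
  rcases isEmpty_or_nonempty X with hE | ⟨⟨x0⟩⟩
  · have : G = fun _ => (∅ : Set X) := by
      funext y
      exact Set.eq_empty_of_isEmpty _
    rw [this]
    exact rect_empty
  have h1 : ∀ y, ∃ g : ℕ → X, G y ⊆ range g := by
    intro y
    obtain ⟨g, hg⟩ := ((hG y).insert x0).exists_eq_range (insert_nonempty _ _)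
    exact ⟨g, by rw [← hg]; exact subset_insert _ _⟩
  choose g hg using h1
  have h2 : ∀ n, Rect fun y => ({g y n} : Set X) ∩ {_x | g y n ∈ G y} := fun n =>
    (rect_graph hX fun y => g y n).inter (rect_strip {y | g y n ∈ G y})
  convert Rect.iUnion h2 using 2 with y
  ext x
  simp only [mem_iUnion, mem_inter_iff, mem_singleton_iff, mem_ofPred_eq]
  constructor
  · intro hx
    obtain ⟨n, hn⟩ := hg y hx
    exact ⟨n, hn.symm, by rw [hn]; exact hx⟩
  · rintro ⟨n, rfl, hx⟩
    exact hx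

theorem mk_Iio_toType {κ : Cardinal.{u}} (i : κ.ord.ToType) : #(Iio i) < κ := by
  simpa using Cardinal.mk_Iio_lt i (by simp)

theorem mk_Iic_toType {κ : Cardinal.{u}} (hκ : ℵ₀ ≤ κ) (i : κ.ord.ToType) : #(Iic i) < κ := by
  have h1 : Iic i ⊆ insert i (Iio i) := by
    intro j hj
    rcases (mem_Iic.1 hj).eq_or_lt with h | h
    · exact Or.inl h
    · exact Or.inr h
  refine (mk_le_mk_of_subset h1).trans_lt (mk_insert_le.trans_lt ?_)
  exact Cardinal.add_lt_of_lt hκ (mk_Iio_toType i) (lt_of_lt_of_le one_lt_aleph0 hκ)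

theorem countable_Iic_toType (i : (ℵ₁ : Cardinal.{u}).ord.ToType) : (Iic i).Countable := by
  rw [← le_aleph0_iff_set_countable, ← lt_aleph_one_iff]
  exact mk_Iic_toType (aleph0_le_aleph 1) i

/-- Under the continuum hypothesis all families are rectangular. -/
theorem allRect_of_ch (hc : (𝔠 : Cardinal.{u}) ≤ ℵ₁) : AllRect (ℵ₁ : Cardinal.{u}) := by
  have hA : #((ℵ₁ : Cardinal.{u}).ord.ToType) ≤ 𝔠 := by
    rw [mk_ord_toType]
    exact aleph_one_le_continuum
  have h0 : ∀ G : (ℵ₁ : Cardinal.{u}).ord.ToType → Set (ℵ₁ : Cardinal.{u}).ord.ToType,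
      Rect G := by
    intro G
    have h1 : Rect fun y => {x | x ≤ y ∧ x ∈ G y} :=
      rect_of_countable_sections hA _ fun y =>
        (countable_Iic_toType y).mono fun x hx => hx.1
    have h2 : Rect fun x => {y | y ≤ x ∧ x ∈ G y} :=
      rect_of_countable_sections hA _ fun y =>
        (countable_Iic_toType y).mono fun x hx => hx.1
    convert h1.union h2.swap using 2 with y
    ext x
    simp only [mem_union, mem_ofPred_eq]
    constructor
    · intro hx
      rcases le_total x y with h | h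
      · exact Or.inl ⟨h, hx⟩
      · exact Or.inr ⟨h, hx⟩
    · rintro (⟨-, hx⟩ | ⟨-, hx⟩) <;> exact hx
  intro X Y hX hY F
  refine rect_of_embedding (Z := (ℵ₁ : Cardinal.{u}).ord.ToType)
    (by rw [mk_ord_toType]; exact hY) (fun F' => ?_) F
  have h3 : Rect fun x => {y | x ∈ F' y} :=
    rect_of_embedding (Z := (ℵ₁ : Cardinal.{u}).ord.ToType)
      (by rw [mk_ord_toType]; exact hX.trans hc) h0 _
  exact h3.swap

/-- If the family property holds and the continuum hypothesis fails, then all families with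
`ℵ₁` indices are rectangular. -/
theorem allRect_aleph_one {E : Type u} (hE : #E = 𝔠) (h : FamilyProperty E)
    (hc : (ℵ₁ : Cardinal.{u}) < 𝔠) : AllRect (ℵ₁ : Cardinal.{u}) := by
  classical
  intro X Y hX hY F0
  refine rect_of_embedding (Z := (ℵ₁ : Cardinal.{u}).ord.ToType)
    (by rw [mk_ord_toType]; exact hY) (fun F => ?_) F0
  clear F0 hY
  have hreg : (Order.succ (ℵ₁ : Cardinal.{u})).IsRegular := isRegular_succ (aleph0_le_aleph 1)
  have hlt : (ℵ₁ : Cardinal.{u}) < Order.succ ℵ₁ := Order.lt_succ _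
  have hle : Order.succ (ℵ₁ : Cardinal.{u}) ≤ 𝔠 := Order.succ_le_of_lt hc
  -- injections of the initial segments of `ω₂` into `ω₁`
  have he : ∀ x : (Order.succ (ℵ₁ : Cardinal.{u})).ord.ToType,
      ∃ e : Iio x → (ℵ₁ : Cardinal.{u}).ord.ToType, Function.Injective e := by
    intro x
    have h1 : #(Iio x) ≤ #((ℵ₁ : Cardinal.{u}).ord.ToType) := by
      rw [mk_ord_toType]
      exact Order.lt_succ_iff.1 (mk_Iio_toType x)
    obtain ⟨⟨j, hj⟩⟩ := (Cardinal.le_def _ _).1 h1
    exact ⟨j, hj⟩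
  choose e he using he
  -- enumerations of the initial segments of `ω₁`
  have hh : ∀ i : (ℵ₁ : Cardinal.{u}).ord.ToType,
      ∃ h : ℕ → (ℵ₁ : Cardinal.{u}).ord.ToType, Iic i = range h := fun i =>
    (countable_Iic_toType i).exists_eq_range nonempty_Iic
  choose en hen using hh
  let F' : (Order.succ (ℵ₁ : Cardinal.{u})).ord.ToType →
      Set ((Order.succ (ℵ₁ : Cardinal.{u})).ord.ToType × ℕ × X) := fun x =>
    {p | ∃ hp : p.1 < x, p.2.2 ∈ F (en (e x ⟨p.1, hp⟩) p.2.1)}
  have hW : #((Order.succ (ℵ₁ : Cardinal.{u})).ord.ToType) ≤ 𝔠 := by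
    rw [mk_ord_toType]; exact hle
  have hbig : #((Order.succ (ℵ₁ : Cardinal.{u})).ord.ToType × ℕ × X) ≤ 𝔠 := by
    rw [mk_prod, mk_prod]
    simp only [Cardinal.lift_id, Cardinal.lift_uzero, mk_nat, lift_aleph0, mk_ord_toType]
    exact mul_le_of_le aleph0_le_continuum hle
      (mul_le_of_le aleph0_le_continuum aleph0_le_continuum hX)
  obtain ⟨S, hS, hR⟩ := exists_large_rect hE h hbig hW hreg hlt (by rw [mk_ord_toType]) F'
  have claim : ∃ ζ : (Order.succ (ℵ₁ : Cardinal.{u})).ord.ToType,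
      ∀ j : (ℵ₁ : Cardinal.{u}).ord.ToType, ∃ x ∈ S, ∃ hx : ζ < x, j ≤ e x ⟨ζ, hx⟩ := by
    by_contra hcon
    push Not at hcon
    choose J hJ using hcon
    obtain ⟨j, hj⟩ := infinite_pigeonhole_card J (Order.succ (ℵ₁ : Cardinal.{u}))
      (by rw [mk_ord_toType]) hreg.aleph0_le (by rw [hreg.cof_ord, mk_ord_toType]; exact hlt)
    obtain ⟨Z, hZ, hZc⟩ := le_mk_iff_exists_subset.1 (hlt.le.trans hj)
    have h1 : ¬ IsCofinal Z := by
      intro hcof
      have h2 := Order.cof_le hcof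
      rw [Ordinal.cof_toType, hreg.cof_ord, hZc] at h2
      exact absurd h2 (not_le.2 hlt)
    obtain ⟨a, ha⟩ := not_isCofinal_iff.1 h1
    have h3 : ∃ x ∈ S, a ≤ x := by
      by_contra hcon
      push Not at hcon
      have h4 : S ⊆ Iio a := hcon
      exact absurd (hS.trans (mk_le_mk_of_subset h4)) (not_le.2 (mk_Iio_toType a))
    obtain ⟨x, hxS, hax⟩ := h3
    have h5 : #Z ≤ #(Iio j) := by
      refine Cardinal.mk_le_of_injective (f := fun z : Z =>
        (⟨e x ⟨z.1, lt_of_lt_of_le (ha z.1 z.2) hax⟩, ?_⟩ : Iio j)) ?_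
      · have h6 := hJ z.1 x hxS (lt_of_lt_of_le (ha z.1 z.2) hax)
        have h7 : J z.1 = j := hZ z.2
        rw [h7] at h6
        exact h6
      · intro z z' hzz
        have h6 := congrArg Subtype.val hzz
        have h7 := he x h6
        have h8 := congrArg Subtype.val h7
        exact Subtype.ext h8
    rw [hZc] at h5
    exact absurd h5 (not_le.2 (mk_Iio_toType j))
  obtain ⟨ζ, hζ⟩ := claim
  choose x hxS hx hxj using hζ
  have hn : ∀ j, ∃ n, en (e (x j) ⟨ζ, hx j⟩) n = j := by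
    intro j
    have h1 : j ∈ Iic (e (x j) ⟨ζ, hx j⟩) := hxj j
    rw [hen] at h1
    exact h1
  choose n hn using hn
  refine rect_of_pieces (fun m : ℕ => {j | n j = m}) (fun j => ⟨n j, rfl⟩) fun m => ?_
  have h1 := hR.comap (fun y : X => (ζ, m, y)) (fun j : {j | n j = m} => (⟨x j, hxS j⟩ : S))
  convert h1 using 2 with j
  have hj : n j.1 = m := j.2
  have hkey : en (e (x j.1) ⟨ζ, hx j.1⟩) m = j.1 := by
    have h2 := hn j.1
    rwa [hj] at h2
  ext y
  constructor
  · intro hy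
    refine ⟨hx j.1, ?_⟩
    change y ∈ F (en (e (x j.1) ⟨ζ, hx j.1⟩) m)
    rw [hkey]
    exact hy
  · rintro ⟨hp, hy⟩
    change y ∈ F (en (e (x j.1) ⟨ζ, hx j.1⟩) m) at hy
    rw [hkey] at hy
    exact hy

/-- The step at regular cardinals above `ℵ₁`. -/
theorem allRect_of_regular {E : Type u} (hE : #E = 𝔠) (h : FamilyProperty E) {κ : Cardinal.{u}}
    (hκ : κ.IsRegular) (h1 : ℵ₁ < κ) (h2 : κ ≤ 𝔠) (ih : ∀ μ < κ, AllRect μ) : AllRect κ := by
  classical
  intro X Y hX hY F0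
  refine rect_of_embedding (Z := κ.ord.ToType) (by rw [mk_ord_toType]; exact hY) (fun F => ?_) F0
  clear F0 hY
  have hb : ∀ β : κ.ord.ToType, ∃ B : ℕ → Set X, ∃ i : Ordinal.{u}, i < ω₁ ∧
      ∀ a : Iio β, F a ∈ generateMeasurableRec (range B) i := fun β =>
    Rect.exists_rank.{u, u} (ih _ (mk_Iio_toType β) X (Iio β) hX le_rfl fun a => F a)
  choose B i hi hB using hb
  have hcard : #(κ.ord.ToType × ℕ) ≤ 𝔠 := by
    rw [mk_prod]
    simp only [Cardinal.lift_uzero, mk_nat, lift_aleph0, mk_ord_toType]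
    exact mul_le_of_le aleph0_le_continuum h2 aleph0_le_continuum
  obtain ⟨Bs, r, hr, hBs⟩ := exists_rank_of_family hE h hX hcard
    (fun p : κ.ord.ToType × ℕ => B p.1 p.2)
  let t : κ.ord.ToType → Ordinal.{u} := fun β => max (i β) (⨆ n, r (β, n))
  have ht : ∀ β, t β < ω₁ := fun β => max_lt (hi β) (Ordinal.iSup_lt_omega_one fun n => hr _)
  obtain ⟨t0, ht0, hS⟩ := exists_large_fibre hκ h1 (by rw [mk_ord_toType]) t ht
  have hb : ∀ a : κ.ord.ToType, ∃ β : {β | t β = t0}, a < β := by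
    intro a
    by_contra hcon
    push Not at hcon
    have h4 : {β | t β = t0} ⊆ Iic a := fun β hβ => hcon ⟨β, hβ⟩
    exact absurd (hS.trans (mk_le_mk_of_subset h4)) (not_le.2 (mk_Iic_toType hκ.aleph0_le a))
  choose b hb using hb
  have h5 : ∀ n, Rect fun β : {β | t β = t0} => B β n := by
    intro n
    refine rect_of_rank t0 ht0 _ (fun _ => Bs) (fun m => rect_const (Bs m)) _ fun β => ?_
    refine generateMeasurableRec_mono _ ?_ (hBs (β, n))
    have h6 : t β = t0 := β.2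
    exact le_trans (le_trans (Ordinal.le_iSup (fun n => r (β.1, n)) n) (le_max_right _ _)) h6.le
  refine rect_of_rank t0 ht0 _ (fun a => B (b a)) (fun n => (h5 n).reindex b) _ fun a => ?_
  refine generateMeasurableRec_mono _ ?_ (hB (b a) ⟨a, hb a⟩)
  have h6 : t (b a) = t0 := (b a).2
  exact le_trans (le_max_left _ _) h6.le

/-- The step at singular cardinals whose cofinality is not `ℵ₁`. -/
theorem allRect_of_singular {κ : Cardinal.{u}} (hκ : ℵ₀ ≤ κ) (hcof : κ.ord.cof < κ)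
    (hne : κ.ord.cof ≠ ℵ₁) (ih : ∀ μ < κ, AllRect μ) : AllRect κ := by
  classical
  intro X Y hX hY F0
  refine rect_of_embedding (Z := κ.ord.ToType) (by rw [mk_ord_toType]; exact hY) (fun F => ?_) F0
  clear F0 hY
  obtain ⟨C, hC, hCc⟩ := Order.exists_cof_eq κ.ord.ToType
  rw [Ordinal.cof_toType] at hCc
  have hb : ∀ β : κ.ord.ToType, ∃ B : ℕ → Set X, ∃ i : Ordinal.{u}, i < ω₁ ∧
      ∀ a : Iic β, F a ∈ generateMeasurableRec (range B) i := fun β =>
    Rect.exists_rank.{u, u} (ih _ (mk_Iic_toType hκ β) X (Iic β) hX le_rfl fun a => F a)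
  choose B i hi hB using hb
  have hBC : ∀ n, Rect fun β : C => B β n := fun n =>
    ih _ (by rw [hCc]; exact hcof) X C hX le_rfl _
  rcases le_or_gt κ.ord.cof ℵ₀ with h0 | h0
  · have : Countable C := by
      rw [← mk_le_aleph0_iff, hCc]
      exact h0
    refine rect_of_pieces (fun ξ : C => Iic ξ.1) (fun a => ?_) fun ξ => ?_
    · obtain ⟨b, hb, hab⟩ := hC a
      exact ⟨⟨b, hb⟩, hab⟩
    · exact ih _ (mk_Iic_toType hκ ξ.1) X _ hX le_rfl _
  · have h1 : ℵ₁ < κ.ord.cof := lt_of_le_of_ne (aleph_one_le_iff.2 h0) hne.symm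
    let s : (ω₁ : Ordinal.{u}).ToType → Set κ.ord.ToType := fun t =>
      {β | β ∈ C ∧ i β = (ToType.toOrd t).1}
    have hcover : IsCofinal (⋃ t, s t) := by
      refine hC.mono fun β hβ => mem_iUnion.2 ⟨ToType.mk ⟨i β, hi β⟩, hβ, by simp⟩
    obtain ⟨t, ht⟩ := isCofinal_of_isCofinal_iUnion hcover (by
      rw [Ordinal.cof_toType]
      simpa using h1)
    have hex : ∀ a, ∃ b, b ∈ s t ∧ a ≤ b := fun a => ht a
    choose b hb hab using hex
    refine rect_of_rank (ToType.toOrd t).1 (ToType.toOrd t).2 _ (fun a => B (b a))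
      (fun n => (hBC n).reindex fun a => ⟨b a, (hb a).1⟩) _ fun a => ?_
    have h2 := hB (b a) ⟨a, hab a⟩
    rwa [(hb a).2] at h2

/-- The step at cardinals `κ` with `κ ^ ℵ₁ ≤ 𝔠`. -/
theorem allRect_of_power {E : Type u} (hE : #E = 𝔠) (h : FamilyProperty E) {κ : Cardinal.{u}}
    (hκ : κ ^ (ℵ₁ : Cardinal.{u}) ≤ 𝔠) : AllRect κ := by
  classical
  intro X Y0 hX hY F0
  refine rect_of_embedding (Z := κ.ord.ToType) (by rw [mk_ord_toType]; exact hY) (fun F => ?_) F0
  clear F0 hY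
  have hA : #((ω₁ : Ordinal.{u}).ToType) = ℵ₁ := by rw [mk_toType, card_omega]
  have hZ : #((ω₁ : Ordinal.{u}).ToType → κ.ord.ToType) ≤ 𝔠 := by
    rw [← power_def, hA, mk_ord_toType]
    exact hκ
  have hAX : #((ω₁ : Ordinal.{u}).ToType × X) ≤ 𝔠 := by
    rw [mk_prod]
    simp only [Cardinal.lift_id]
    exact mul_le_of_le aleph0_le_continuum (hA.le.trans aleph_one_le_continuum) hX
  obtain ⟨B, r, hr, hB⟩ := exists_rank_of_family hE h hAX hZ
    (fun z : (ω₁ : Ordinal.{u}).ToType → κ.ord.ToType => {p | p.2 ∈ F (z p.1)})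
  have claim : ∃ σ : (ω₁ : Ordinal.{u}).ToType, ∀ y : κ.ord.ToType,
      ∃ z : (ω₁ : Ordinal.{u}).ToType → κ.ord.ToType, r z ≤ (ToType.toOrd σ).1 ∧ z σ = y := by
    by_contra hcon
    push Not at hcon
    choose y hy using hcon
    have h1 := hy (ToType.mk ⟨r y, hr y⟩) y (by simp)
    exact h1 rfl
  obtain ⟨σ, hσ⟩ := claim
  choose z hz hzσ using hσ
  have h1 : Rect fun y => {p : (ω₁ : Ordinal.{u}).ToType × X | p.2 ∈ F (z y p.1)} := by
    refine rect_of_rank (ToType.toOrd σ).1 (ToType.toOrd σ).2 _ (fun _ => B)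
      (fun m => rect_const (B m)) _ fun y => ?_
    exact generateMeasurableRec_mono _ (hz y) (hB (z y))
  have h2 := h1.comap (fun x : X => (σ, x)) id
  convert h2 using 2 with y
  ext x
  simp [hzσ]

/-- Under the family property all families with at most `κ ≤ 𝔠` indices are rectangular, provided
every singular cardinal `μ ≤ κ` of cofinality `ℵ₁` satisfies `μ ^ ℵ₁ ≤ 𝔠`. -/
theorem allRect_of_family {E : Type u} (hE : #E = 𝔠) (h : FamilyProperty E) (κ : Cardinal.{u})
    (hc : κ ≤ 𝔠) (hcond : ∀ μ ≤ κ, μ.ord.cof = ℵ₁ → μ = ℵ₁ ∨ μ ^ (ℵ₁ : Cardinal.{u}) ≤ 𝔠) :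
    AllRect κ := by
  induction κ using WellFoundedLT.induction with
  | ind κ IH =>
  have ih : ∀ μ < κ, AllRect μ := fun μ hμ =>
    IH μ hμ (hμ.le.trans hc) fun ν hν => hcond ν (hν.trans hμ.le)
  rcases le_or_gt κ ℵ₀ with h0 | h0
  · intro X Y hX hY F
    have : Countable Y := by
      rw [← mk_le_aleph0_iff]
      exact hY.trans h0
    exact rect_of_countable F
  rcases le_or_gt κ κ.ord.cof with hreg | hsing
  · have hκ : κ.IsRegular := ⟨h0.le, hreg⟩
    rcases (aleph_one_le_iff.2 h0).eq_or_lt with h1 | h1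
    · rw [← h1]
      rcases le_or_gt (𝔠 : Cardinal.{u}) ℵ₁ with hch | hch
      · exact allRect_of_ch hch
      · exact allRect_aleph_one hE h hch
    · exact allRect_of_regular hE h hκ h1 hc ih
  · rcases eq_or_ne κ.ord.cof ℵ₁ with h1 | h1
    · rcases hcond κ le_rfl h1 with h2 | h2
      · rw [h1, ← h2] at hsing
        exact absurd hsing (lt_irrefl _)
      · exact allRect_of_power hE h h2
    · exact allRect_of_singular h0.le hsing h1 ih

/-- The condition of `allRect_of_family` holds if `𝔠 < ℵ_{ω₁}` or `2 ^ ℵ₁ = 𝔠`. -/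
theorem condition_of_or (h : (𝔠 : Cardinal.{u}) < ℵ_ ω₁ ∨ (2 : Cardinal.{u}) ^ (ℵ₁ : Cardinal.{u}) = 𝔠) :
    ∀ μ ≤ (𝔠 : Cardinal.{u}), μ.ord.cof = ℵ₁ → μ = ℵ₁ ∨ μ ^ (ℵ₁ : Cardinal.{u}) ≤ 𝔠 := by
  intro μ hμ hcof
  rcases h with h | h
  · left
    have h0 : ℵ₀ ≤ μ := by
      by_contra hlt
      have h1 : μ.ord.cof ≤ μ := cof_ord_le μ
      rw [hcof] at h1
      exact hlt ((aleph0_le_aleph 1).trans h1)
    obtain ⟨ν, rfl⟩ := mem_range_aleph_iff.2 h0
    have hν : ν < ω₁ := by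
      have := hμ.trans_lt h
      rwa [aleph_lt_aleph] at this
    rcases Ordinal.zero_or_succ_or_isSuccLimit ν with rfl | ⟨ρ, rfl⟩ | hlim
    · rw [aleph_zero, isRegular_aleph0.cof_ord] at hcof
      exact absurd hcof (aleph0_lt_aleph_one).ne
    · have h1 : (ℵ_ (Order.succ ρ)).IsRegular := by
        have h2 : ℵ_ (Order.succ ρ) = Order.succ (ℵ_ ρ) := by
          rw [succ_aleph]
          rfl
        rw [h2]
        exact isRegular_succ (aleph0_le_aleph ρ)
      rw [h1.cof_ord] at hcof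
      exact hcof
    · rw [ord_aleph, cof_map_of_isNormal isNormal_omega hlim] at hcof
      have h1 : ν.cof ≤ ν.card := cof_le_card ν
      rw [hcof] at h1
      have h2 : ν.card < ℵ₁ := by
        rw [← ord_aleph, lt_ord] at hν
        exact hν
      exact absurd h1 (not_le.2 h2)
  · right
    refine (power_le_power_right hμ).trans ?_
    rw [← two_power_aleph0, ← power_mul,
      mul_eq_right (aleph0_le_aleph 1) (aleph0_le_aleph 1) aleph0_ne_zero, h, two_power_aleph0]

end Pool.Agent.Lib.MP_17aaef_lc
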