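import Mathlib
import Pool.Agent.Lib.MP_17aaef_lc.Steps
import Pool.Agent.Lib.MP_17aaef_lc.Guess

set_option autoImplicit false

namespace Pool.Agent.Lib.MP_17aaef_lc

open Set Cardinal Ordinal MeasureTheory MeasurableSpace

universe u v w

theorem preimage_rec {X X' : Type u} (g : X → X') (B : ℕ → Set X') (i : Ordinal.{v}) :
    ∀ W ∈ generateMeasurableRec (range B) i,
      g ⁻¹' W ∈ generateMeasurableRec (range fun n => g ⁻¹' B n) i := by
  induction i using WellFoundedLT.induction with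
  | ind i IH =>
  intro x hx
  rw [generateMeasurableRec] at hx
  rcases hx with ((hx | hx) | hx) | hx
  · obtain ⟨n, rfl⟩ := hx
    exact self_subset_generateMeasurableRec _ i ⟨n, rfl⟩
  · rw [mem_singleton_iff] at hx
    rw [hx]
    exact empty_mem_generateMeasurableRec _ i
  · obtain ⟨U, hU, rfl⟩ := hx
    obtain ⟨j, hj, hU'⟩ := mem_iUnion₂.1 hU
    exact compl_mem_generateMeasurableRec hj (IH j hj U hU')
  · obtain ⟨f, rfl⟩ := hx
    rw [preimage_iUnion]
    refine iUnion_mem_generateMeasurableRec fun n => ?_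
    obtain ⟨j, hj, hj'⟩ := mem_iUnion₂.1 (f n).2
    exact ⟨j, hj, IH j hj _ hj'⟩

/-- Colourings of `κ⁺ × κ⁺` with fewer than `κ` colours, `κ` a limit cardinal. -/
theorem exists_coloring_onto {κ : Cardinal.{u}} (h0 : ℵ₀ < κ) (hlim : ∀ μ < κ, Order.succ μ < κ)
    {Z : Type u} (hne : Nonempty Z) (hZ : #Z < κ) :
    ∃ c : (Order.succ κ).ord.ToType → (Order.succ κ).ord.ToType → Z,
      ∀ S : Set (Order.succ κ).ord.ToType, Order.succ κ ≤ #S → ∃ δ, ∀ z, ∃ f ∈ S, c f δ = z := by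
  classical
  have h1 : max ℵ₀ #Z < κ := max_lt h0 hZ
  have hθ : (Order.succ (max ℵ₀ #Z)).IsRegular := isRegular_succ (le_max_left _ _)
  have hlam : (Order.succ κ).IsRegular := isRegular_succ h0.le
  have hlt : Order.succ (Order.succ (max ℵ₀ #Z)) < Order.succ κ :=
    (hlim _ (hlim _ h1)).trans (Order.lt_succ κ)
  obtain ⟨c, hc⟩ := Guess.exists_coloring hlam hθ hlt
  have h2 : #Z ≤ #((Order.succ (max ℵ₀ #Z)).ord.ToType) := by
    rw [mk_ord_toType]
    exact (le_max_right _ _).trans (Order.le_succ _)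
  obtain ⟨⟨j, hj⟩⟩ := (Cardinal.le_def _ _).1 h2
  refine ⟨fun f δ => Function.invFun j (c f δ), fun S hS => ?_⟩
  obtain ⟨δ, hδ⟩ := hc S hS
  refine ⟨δ, fun z => ?_⟩
  obtain ⟨f, hf, hfz⟩ := hδ (j z)
  refine ⟨f, hf, ?_⟩
  change Function.invFun j (c f δ) = z
  rw [hfz]
  exact Function.leftInverse_invFun hj z

theorem succ_lt_of_singular {κ : Cardinal.{u}} (h0 : ℵ₀ < κ) (hcof : κ.ord.cof < κ) :
    ∀ μ < κ, Order.succ μ < κ := by
  intro μ hμ
  rcases (Order.succ_le_of_lt hμ).eq_or_lt with h | h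
  · exfalso
    have h1 : ℵ₀ ≤ μ := by
      by_contra hlt
      push Not at hlt
      have h2 : Order.succ μ < ℵ₀ := by
        obtain ⟨n, rfl⟩ := lt_aleph0.1 hlt
        rw [succ_natCast]
        exact add_lt_aleph0 natCast_lt_aleph0 one_lt_aleph0
      rw [h] at h2
      exact absurd h2 (not_lt.2 h0.le)
    have h3 := (isRegular_succ h1).cof_ord
    rw [h] at h3
    rw [h3] at hcof
    exact absurd hcof (lt_irrefl _)
  · exact h

/-- The step at singular cardinals of cofinality `ℵ₁` below the continuum. -/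
theorem allRect_of_cof_aleph_one {E : Type u} (hE : #E = 𝔠) (h : FamilyProperty E)
    {κ : Cardinal.{u}} (hκ : κ < 𝔠) (hcof : κ.ord.cof = ℵ₁) (hne : ℵ₁ < κ)
    (ih : ∀ μ < κ, AllRect μ) : AllRect κ := by
  classical
  have h0 : ℵ₀ < κ := aleph0_lt_aleph_one.trans hne
  have hlim : ∀ μ < κ, Order.succ μ < κ := succ_lt_of_singular h0 (by rw [hcof]; exact hne)
  intro X Y hX hY F0
  refine rect_of_embedding (Z := κ.ord.ToType) (by rw [mk_ord_toType]; exact hY) (fun F => ?_) F0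
  clear F0 hY
  obtain ⟨C, hC, hCc⟩ := Order.exists_cof_eq κ.ord.ToType
  rw [Ordinal.cof_toType, hcof] at hCc
  have hcol : ∀ a : κ.ord.ToType, ∃ c : (Order.succ κ).ord.ToType →
      (Order.succ κ).ord.ToType → Iic a, ∀ S : Set (Order.succ κ).ord.ToType,
        Order.succ κ ≤ #S → ∃ δ, ∀ z, ∃ f ∈ S, c f δ = z := fun a =>
    exists_coloring_onto h0 hlim ⟨⟨a, mem_Iic.2 le_rfl⟩⟩ (mk_Iic_toType h0.le a)
  choose c hc using hcol
  have hsucc : Order.succ κ ≤ 𝔠 := Order.succ_le_of_lt hκ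
  have hV : #((Order.succ κ).ord.ToType) ≤ 𝔠 := by
    rw [mk_ord_toType]
    exact hsucc
  have hbig : #((Order.succ κ).ord.ToType × C × X) ≤ 𝔠 := by
    rw [mk_prod, mk_prod]
    simp only [Cardinal.lift_id, hCc, mk_ord_toType]
    exact mul_le_of_le aleph0_le_continuum hsucc
      (mul_le_of_le aleph0_le_continuum aleph_one_le_continuum hX)
  obtain ⟨S, hS, hR⟩ := exists_large_rect hE h hbig hV (isRegular_succ h0.le)
    (hne.trans (Order.lt_succ κ)) (by rw [mk_ord_toType])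
    (fun f : (Order.succ κ).ord.ToType =>
      {p : (Order.succ κ).ord.ToType × C × X | p.2.2 ∈ F (c p.2.1.1 f p.1).1})
  obtain ⟨B, i, hi, hB⟩ := Rect.exists_rank.{u, u} hR
  have hδ : ∀ a : κ.ord.ToType, ∃ δ, ∀ z : Iic a, ∃ f ∈ S, c a f δ = z := fun a => hc a S hS
  choose δ hδ using hδ
  have ha : ∀ y : κ.ord.ToType, ∃ a ∈ C, y ≤ a := fun y => hC y
  choose a haC hya using ha
  have hf : ∀ y : κ.ord.ToType, ∃ f ∈ S, c (a y) f (δ (a y)) = ⟨y, hya y⟩ := fun y =>
    hδ (a y) ⟨y, hya y⟩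
  choose f hfS hf using hf
  refine rect_of_rank i hi _
    (fun y n => (fun x : X => (δ (a y), (⟨a y, haC y⟩ : C), x)) ⁻¹' B n) (fun n => ?_) _
    (fun y => ?_)
  · have h1 : Rect fun b : C => (fun x : X => (δ b.1, b, x)) ⁻¹' B n :=
      ih _ (by rw [hCc]; exact hne) X C hX le_rfl _
    exact h1.reindex fun y : κ.ord.ToType => (⟨a y, haC y⟩ : C)
  · have h1 := preimage_rec (fun x : X => (δ (a y), (⟨a y, haC y⟩ : C), x)) B i _
      (hB ⟨f y, hfS y⟩)
    have h2 : (fun x : X => (δ (a y), (⟨a y, haC y⟩ : C), x)) ⁻¹'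
        {p : (Order.succ κ).ord.ToType × C × X | p.2.2 ∈ F (c p.2.1.1 (f y) p.1).1} = F y := by
      ext x
      simp only [mem_preimage, mem_ofPred_eq]
      rw [hf y]
    rw [← h2]
    exact h1

/-- Under the family property all families with fewer than continuum many indices are
rectangular, and all families with continuum many indices if the continuum has cofinality
different from `ℵ₁` or is equal to `ℵ₁`. -/
theorem allRect_of_family' {E : Type u} (hE : #E = 𝔠) (h : FamilyProperty E) (κ : Cardinal.{u})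
    (hc : κ < 𝔠 ∨ (κ = 𝔠 ∧ ((𝔠 : Cardinal.{u}).ord.cof ≠ ℵ₁ ∨ (𝔠 : Cardinal.{u}) = ℵ₁))) :
    AllRect κ := by
  induction κ using WellFoundedLT.induction with
  | ind κ IH =>
  have hle : κ ≤ 𝔠 := by
    rcases hc with hc | hc
    · exact hc.le
    · exact hc.1.le
  have ih : ∀ μ < κ, AllRect μ := fun μ hμ => IH μ hμ (Or.inl (hμ.trans_le hle))
  rcases le_or_gt κ ℵ₀ with h0 | h0
  · intro X Y hX hY F
    have : Countable Y := by
      rw [← mk_le_aleph0_iff]
      exact hY.trans h0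
    exact rect_of_countable F
  rcases le_or_gt κ κ.ord.cof with hreg | hsing
  · have hκ : κ.IsRegular := ⟨h0.le, hreg⟩
    rcases (aleph_one_le_iff.2 h0).eq_or_lt with h1 | h1
    · rw [← h1]
      rcases le_or_gt (𝔠 : Cardinal.{u}) ℵ₁ with hch | hch
      · exact allRect_of_ch hch
      · exact allRect_aleph_one hE h hch
    · exact allRect_of_regular hE h hκ h1 hle ih
  · rcases eq_or_ne κ.ord.cof ℵ₁ with h1 | h1
    · have hne : ℵ₁ < κ := by
        rw [h1] at hsing
        exact hsing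
      rcases hc with hc | ⟨rfl, hc | hc⟩
      · exact allRect_of_cof_aleph_one hE h hc h1 hne ih
      · exact absurd h1 hc
      · rw [hc] at hne
        exact absurd hne (lt_irrefl _)
    · exact allRect_of_singular h0.le hsing h1 ih

/-- If the continuum has cofinality `ℵ₁` and all families with fewer than continuum many indices
are rectangular, then the family property holds. -/
theorem family_of_cof_aleph_one {E : Type u} (hE : #E = 𝔠)
    (hcof : (𝔠 : Cardinal.{u}).ord.cof = ℵ₁)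
    (h : ∀ I : Type u, #I < 𝔠 → ∀ F : I → Set E, Rect F) : FamilyProperty E := by
  classical
  rcases (aleph_one_le_continuum : (ℵ₁ : Cardinal.{u}) ≤ 𝔠).eq_or_lt with hch | hch
  · refine family_of_rect hE fun F => ?_
    exact allRect_of_ch hch.ge E E hE.le (by rw [hE, hch]) F
  intro H hH
  rcases H.eq_empty_or_nonempty with rfl | hne
  · exact ⟨fun _ => ∅, fun T hT => absurd hT (notMem_empty T)⟩
  obtain ⟨S, rfl⟩ := exists_enum hE H hH hne
  have hEE : #((𝔠 : Cardinal.{u}).ord.ToType) = #E := by rw [mk_ord_toType, hE]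
  obtain ⟨eqv⟩ := Cardinal.eq.1 hEE
  obtain ⟨C, hC, hCc⟩ := Order.exists_cof_eq (𝔠 : Cardinal.{u}).ord.ToType
  rw [Ordinal.cof_toType, hcof] at hCc
  have hb : ∀ a : (𝔠 : Cardinal.{u}).ord.ToType, ∃ B : ℕ → Set E, ∃ i : Ordinal.{u}, i < ω₁ ∧
      ∀ y : Iic a, S (eqv y) ∈ generateMeasurableRec (range B) i := fun a =>
    Rect.exists_rank.{u, u}
      (h (Iic a) (mk_Iic_toType aleph0_le_continuum a) fun y : Iic a => S (eqv y))
  choose B i hi hB using hb
  have hC0 : #(ULift.{u} ℕ × C) < 𝔠 := by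
    rw [mk_prod]
    simp only [Cardinal.lift_id, mk_uLift, mk_nat, lift_aleph0, hCc]
    refine lt_of_le_of_lt ?_ hch
    exact mul_le_of_le (aleph0_le_aleph 1) (aleph0_le_aleph 1) le_rfl
  obtain ⟨D, i', -, hD⟩ := Rect.exists_rank.{u, u}
    (h (ULift.{u} ℕ × C) hC0 fun p => B p.2.1 p.1.down)
  refine ⟨D, ?_⟩
  rintro _ ⟨y, rfl⟩
  obtain ⟨a, haC, hya⟩ := hC (eqv.symm y)
  have h1 := hB a ⟨eqv.symm y, hya⟩
  simp only [Equiv.apply_symm_apply] at h1
  have h2 := generateMeasurableRec_subset _ _ h1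
  have h3 : MeasurableSpace.generateFrom (range (B a)) ≤ MeasurableSpace.generateFrom (range D) := by
    refine MeasurableSpace.generateFrom_le ?_
    rintro _ ⟨n, rfl⟩
    exact generateMeasurableRec_subset _ _ (hD (⟨n⟩, ⟨a, haC⟩))
  exact h3 _ h2

end Pool.Agent.Lib.MP_17aaef_lc
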