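import Mathlib
import Pool.Agent.Lib.MP_17aaef_lc.Steps

set_option autoImplicit false

namespace Pool.Agent.Lib.MP_17aaef_lc

open Set Cardinal Ordinal MeasureTheory MeasurableSpace

universe u v w

/-- Ladders: there is a family of functions `h η` from `m⁺` to a well-order `K` of size at most `m`
such that on every set of size `m⁺` one of these functions has cofinal range. -/
theorem exists_ladders {m : Cardinal.{u}} (hm : ℵ₀ ≤ m) {K : Type u} [LinearOrder K]
    [WellFoundedLT K] [Nonempty K] (hK : #K ≤ m) :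
    ∃ h : (Order.succ m).ord.ToType → (Order.succ m).ord.ToType → K,
      ∀ S : Set (Order.succ m).ord.ToType, Order.succ m ≤ #S →
        ∃ η, ∀ i : K, ∃ y ∈ S, i ≤ h η y := by
  classical
  let Good : (Order.succ m).ord.ToType → ((Order.succ m).ord.ToType → K) → Prop :=
    fun η u => ∀ i : K, ∃ y0 < η, ∀ y, y0 ≤ y → y < η → i ≤ u y
  refine ⟨fun η => if hη : ∃ u, Good η u then Classical.choose hη else fun _ => Classical.arbitrary K,
    fun S hS => ?_⟩
  obtain ⟨s, hs, hs'⟩ := Ordinal.exists_ord_cof_eq K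
  have hle : typeLT s ≤ typeLT S := by
    rw [hs']
    refine le_trans ?_ (Cardinal.ord_le_type (α := S) (· < ·))
    exact Cardinal.ord_le_ord.2 (((Order.cof_le_cardinalMk K).trans hK).trans ((Order.le_succ m).trans hS))
  obtain ⟨g⟩ := Ordinal.type_le_iff'.1 hle
  have hg : ∀ k k' : s, ((g k : S) : (Order.succ m).ord.ToType) < g k' ↔ k < k' := by
    intro k k'
    exact g.map_rel_iff
  have hreg : (Order.succ m).IsRegular := isRegular_succ hm
  have hbdd : ∃ η, ∀ k : s, ((g k : S) : (Order.succ m).ord.ToType) < η := by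
    have h1 : ¬ IsCofinal (range fun k : s => ((g k : S) : (Order.succ m).ord.ToType)) := by
      intro hcof
      have h2 := Order.cof_le hcof
      rw [Ordinal.cof_toType, hreg.cof_ord] at h2
      have h3 : #(range fun k : s => ((g k : S) : (Order.succ m).ord.ToType)) ≤ m :=
        mk_range_le.trans ((mk_set_le s).trans hK)
      exact absurd (h2.trans h3) (not_le.2 (Order.lt_succ m))
    obtain ⟨a, ha⟩ := not_isCofinal_iff.1 h1
    exact ⟨a, fun k => ha _ ⟨k, rfl⟩⟩
  let η := wellFounded_lt.min {η | ∀ k : s, ((g k : S) : (Order.succ m).ord.ToType) < η} hbdd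
  have hη : ∀ k : s, ((g k : S) : (Order.succ m).ord.ToType) < η :=
    wellFounded_lt.min_mem {η | ∀ k : s, ((g k : S) : (Order.succ m).ord.ToType) < η} hbdd
  have hη' : ∀ y < η, ∃ k : s, y ≤ ((g k : S) : (Order.succ m).ord.ToType) := by
    intro y hy
    by_contra hcon
    push Not at hcon
    exact wellFounded_lt.not_lt_min {η | ∀ k : s, ((g k : S) : (Order.succ m).ord.ToType) < η}
      (x := y) hcon hy
  have hex : ∃ u, Good η u := by
    refine ⟨fun y => if hy : ∃ k : s, y ≤ ((g k : S) : (Order.succ m).ord.ToType) then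
      (wellFounded_lt.min {k : s | y ≤ ((g k : S) : (Order.succ m).ord.ToType)} hy : s)
      else Classical.arbitrary K, fun i => ?_⟩
    obtain ⟨k, hk, hik⟩ := hs i
    refine ⟨g ⟨k, hk⟩, hη _, fun y hy hyη => ?_⟩
    have hy' := hη' y hyη
    simp only
    rw [dif_pos hy']
    have h1 := wellFounded_lt.min_mem {k : s | y ≤ ((g k : S) : (Order.succ m).ord.ToType)} hy'
    have h2 : (⟨k, hk⟩ : s) ≤
        wellFounded_lt.min {k : s | y ≤ ((g k : S) : (Order.succ m).ord.ToType)} hy' := by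
      rw [← not_lt, ← hg, not_lt]
      exact hy.trans h1
    exact hik.trans h2
  refine ⟨η, fun i => ?_⟩
  obtain ⟨y0, hy0, h0⟩ := Classical.choose_spec hex i
  obtain ⟨k, hk⟩ := hη' y0 hy0
  refine ⟨g k, (g k).2, ?_⟩
  simp only
  rw [dif_pos hex]
  exact h0 _ hk (hη k)

theorem rec_comp {X : Type u} {s s' : Set (Set X)} {σ : Ordinal.{v}}
    (hs : s ⊆ generateMeasurableRec s' σ) (ρ : Ordinal.{v}) :
    generateMeasurableRec s ρ ⊆ generateMeasurableRec s' (σ + ρ) := by
  induction ρ using WellFoundedLT.induction with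
  | ind ρ IH =>
  intro x hx
  rw [generateMeasurableRec] at hx
  rcases hx with ((hx | hx) | hx) | hx
  · exact generateMeasurableRec_mono _ (by simp) (hs hx)
  · rw [mem_singleton_iff] at hx
    rw [hx]
    exact empty_mem_generateMeasurableRec _ _
  · obtain ⟨U, hU, rfl⟩ := hx
    obtain ⟨j, hj, hU'⟩ := mem_iUnion₂.1 hU
    exact compl_mem_generateMeasurableRec ((add_lt_add_iff_left σ).2 hj) (IH j hj hU')
  · obtain ⟨f, rfl⟩ := hx
    refine iUnion_mem_generateMeasurableRec fun n => ?_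
    obtain ⟨j, hj, hj'⟩ := mem_iUnion₂.1 (f n).2
    exact ⟨σ + j, (add_lt_add_iff_left σ).2 hj, IH j hj hj'⟩

theorem rec_preimage {X X' : Type u} (f : X → X') (s : Set (Set X')) (ρ : Ordinal.{v}) :
    ∀ A ∈ generateMeasurableRec s ρ, f ⁻¹' A ∈ generateMeasurableRec ((fun B => f ⁻¹' B) '' s) ρ := by
  induction ρ using WellFoundedLT.induction with
  | ind ρ IH =>
  intro x hx
  rw [generateMeasurableRec] at hx
  rcases hx with ((hx | hx) | hx) | hx
  · exact self_subset_generateMeasurableRec _ _ ⟨x, hx, rfl⟩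
  · rw [mem_singleton_iff] at hx
    rw [hx]
    exact empty_mem_generateMeasurableRec _ _
  · obtain ⟨U, hU, rfl⟩ := hx
    obtain ⟨j, hj, hU'⟩ := mem_iUnion₂.1 hU
    exact compl_mem_generateMeasurableRec hj (IH j hj _ hU')
  · obtain ⟨g, rfl⟩ := hx
    rw [preimage_iUnion]
    refine iUnion_mem_generateMeasurableRec fun n => ?_
    obtain ⟨j, hj, hj'⟩ := mem_iUnion₂.1 (g n).2
    exact ⟨j, hj, IH j hj _ hj'⟩

/-- The family `F` of subsets of `X` consists of sets of Borel rank at most `t` over one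
sequence. -/
def Bd {X : Type u} {Y : Type w} (t : Ordinal.{v}) (F : Y → Set X) : Prop :=
  ∃ B : ℕ → Set X, ∀ y, F y ∈ generateMeasurableRec (range B) t

theorem Bd.reindex {X : Type u} {Y Y' : Type w} {t : Ordinal.{v}} {F : Y → Set X} (h : Bd t F)
    (g : Y' → Y) : Bd t fun y => F (g y) := by
  obtain ⟨B, hB⟩ := h
  exact ⟨B, fun y => hB _⟩

theorem bd_of_countable {X : Type u} {Y : Type w} [Countable Y] (t : Ordinal.{v}) (F : Y → Set X) :
    Bd t F := by
  rcases isEmpty_or_nonempty Y with h | h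
  · exact ⟨fun _ => ∅, fun y => h.elim y⟩
  · obtain ⟨g, hg⟩ := exists_surjective_nat Y
    refine ⟨fun n => F (g n), fun y => self_subset_generateMeasurableRec _ _ ?_⟩
    obtain ⟨n, rfl⟩ := hg y
    exact ⟨n, rfl⟩

/-- THE UNIFORM BOUND: under the family property, for every `m < 𝔠` there is one countable bound
for the Borel ranks of all families with at most `m` members. -/
theorem uniform_of_family {E : Type u} (hE : #E = 𝔠) (h : FamilyProperty E) {m : Cardinal.{u}}
    (hm : m < 𝔠) : ∃ t : Ordinal.{u}, t < ω₁ ∧ ∀ Y : Type u, #Y ≤ m → ∀ F : Y → Set E, Bd t F := by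
  classical
  rcases le_or_gt m ℵ₀ with h0 | h0
  · refine ⟨0, omega_pos 1, fun Y hY F => ?_⟩
    have : Countable Y := by
      rw [← mk_le_aleph0_iff]
      exact hY.trans h0
    exact bd_of_countable _ F
  by_contra hcon
  push Not at hcon
  have hm1 : ℵ₁ ≤ m := aleph_one_le_iff.2 h0
  have hlt : ℵ₁ < Order.succ m := hm1.trans_lt (Order.lt_succ m)
  have hreg : (Order.succ m).IsRegular := isRegular_succ h0.le
  have hle : Order.succ m ≤ 𝔠 := Order.succ_le_of_lt hm
  -- minimal bad families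
  have hbad : ∀ τ : (ω₁ : Ordinal.{u}).ToType, ∃ (κ : Cardinal.{u}) (_ : κ ≤ m)
      (_ : Nonempty κ.ord.ToType)
      (G : κ.ord.ToType → Set E) (B : κ.ord.ToType → ℕ → Set E),
      ¬ Bd (ToType.toOrd τ).1 G ∧
      ∀ β, ∀ i ≤ β, G i ∈ generateMeasurableRec (range (B β)) (ToType.toOrd τ).1 := by
    intro τ
    let P : Set Cardinal.{u} := {κ | ∃ Y : Type u, #Y = κ ∧ ∃ F : Y → Set E,
      ¬ Bd (ToType.toOrd τ).1 F}
    obtain ⟨Y0, hY0, F0, hF0⟩ := hcon (ToType.toOrd τ).1 (ToType.toOrd τ).2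
    have hP : P.Nonempty := ⟨#Y0, Y0, rfl, F0, hF0⟩
    obtain ⟨Y, hY, F, hF⟩ := csInf_mem hP
    have hκm : sInf P ≤ m := (csInf_le' ⟨Y0, rfl, F0, hF0⟩ : sInf P ≤ #Y0).trans hY0
    have hmin : ∀ Y' : Type u, #Y' < sInf P → ∀ F' : Y' → Set E, Bd (ToType.toOrd τ).1 F' := by
      intro Y' hY' F'
      by_contra hF'
      exact notMem_of_lt_csInf' hY' ⟨Y', rfl, F', hF'⟩
    have hκ0 : ℵ₀ < sInf P := by
      by_contra hcon
      push Not at hcon
      have : Countable Y := by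
        rw [← mk_le_aleph0_iff, hY]
        exact hcon
      exact hF (bd_of_countable _ F)
    have hequiv : Nonempty ((sInf P).ord.ToType ≃ Y) := by
      rw [← Cardinal.eq, mk_ord_toType, hY]
    obtain ⟨e⟩ := hequiv
    have hne : Nonempty (sInf P).ord.ToType := by
      rw [← mk_ne_zero_iff, mk_ord_toType]
      exact (aleph0_pos.trans hκ0).ne'
    have hB : ∀ β : (sInf P).ord.ToType, Bd (ToType.toOrd τ).1 fun i : Iic β => F (e i) :=
      fun β => hmin _ (mk_Iic_toType hκ0.le β) _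
    choose B hB using hB
    refine ⟨sInf P, hκm, hne, fun i => F (e i), B, fun hbd => hF ?_, fun β i hi => hB β ⟨i, hi⟩⟩
    have := hbd.reindex e.symm
    simpa using this
  choose κ hκm hne G B hG hB using hbad
  have hlad := fun τ => exists_ladders h0.le (K := (κ τ).ord.ToType)
    (by rw [mk_ord_toType]; exact hκm τ)
  choose l hl using hlad
  -- the coding family
  let F' : (Order.succ m).ord.ToType →
      Set ((ω₁ : Ordinal.{u}).ToType × (Order.succ m).ord.ToType × ℕ × E) := fun y =>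
    {p | p.2.2.2 ∈ B p.1 (l p.1 p.2.1 y) p.2.2.1}
  have hM : #((Order.succ m).ord.ToType) ≤ 𝔠 := by
    rw [mk_ord_toType]; exact hle
  have hΩ : #((ω₁ : Ordinal.{u}).ToType) ≤ 𝔠 := by
    rw [mk_toType, card_omega]
    exact aleph_one_le_continuum
  have hbig : #((ω₁ : Ordinal.{u}).ToType × (Order.succ m).ord.ToType × ℕ × E) ≤ 𝔠 := by
    rw [mk_prod, mk_prod, mk_prod]
    simp only [Cardinal.lift_id, Cardinal.lift_uzero, mk_nat, lift_aleph0]
    exact mul_le_of_le aleph0_le_continuum hΩ (mul_le_of_le aleph0_le_continuum hM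
      (mul_le_of_le aleph0_le_continuum aleph0_le_continuum hE.le))
  obtain ⟨Bs, r, hr, hBs⟩ := exists_rank_of_family hE h hbig hM F'
  obtain ⟨σ, hσ, hS⟩ := exists_large_fibre hreg hlt (by rw [mk_ord_toType]) r hr
  have ht : σ * ω < ω₁ := by
    have h1 : ∀ a : Ordinal.{u}, a < ω₁ ↔ a.card ≤ ℵ₀ := by
      intro a
      rw [← ord_aleph, lt_ord, lt_aleph_one_iff]
    rw [h1] at hσ ⊢
    rw [card_mul, card_omega0]
    exact mul_le_of_le le_rfl hσ le_rfl
  have hσt : σ + σ * ω = σ * ω := by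
    have : σ + σ * ω = σ * (1 + ω) := by rw [mul_add, mul_one]
    rw [this, one_add_omega0]
  let τ : (ω₁ : Ordinal.{u}).ToType := ToType.mk ⟨σ * ω, ht⟩
  have hτ : (ToType.toOrd τ).1 = σ * ω := by simp [τ]
  obtain ⟨η, hη⟩ := hl τ _ hS
  apply hG τ
  rw [hτ]
  refine ⟨fun k => (fun z : E => (τ, η, (Nat.unpair k).1, z)) ⁻¹' Bs (Nat.unpair k).2, fun i => ?_⟩
  obtain ⟨y, hy, hiy⟩ := hη i
  have h1 := hB τ (l τ η y) i hiy
  rw [hτ] at h1
  rw [← hσt]
  refine rec_comp ?_ _ h1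
  rintro _ ⟨n, rfl⟩
  have h2 := rec_preimage (fun z : E => (τ, η, n, z)) _ _ _ (hBs y)
  have h3 : r y = σ := hy
  rw [h3] at h2
  refine rec_mono_left ?_ _ h2
  rintro _ ⟨_, ⟨k, rfl⟩, rfl⟩
  exact ⟨Nat.pair n k, by simp⟩

/-- The uniform bound for families of subsets of any set of size at most continuum. -/
theorem uniform_of_family' {E : Type u} (hE : #E = 𝔠) (h : FamilyProperty E) {m : Cardinal.{u}}
    (hm : m < 𝔠) : ∃ t : Ordinal.{u}, t < ω₁ ∧ ∀ X Y : Type u, #X ≤ 𝔠 → #Y ≤ m →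
      ∀ F : Y → Set X, Bd t F := by
  obtain ⟨t, ht, H⟩ := uniform_of_family hE h hm
  refine ⟨t, ht, fun X Y hX hY F => ?_⟩
  obtain ⟨⟨φ, hφ⟩⟩ := (Cardinal.le_def _ _).1 (hX.trans_eq hE.symm)
  obtain ⟨B, hB⟩ := H Y hY fun y => φ '' F y
  refine ⟨fun n => φ ⁻¹' B n, fun y => ?_⟩
  have h1 := rec_preimage φ _ _ _ (hB y)
  rw [preimage_image_eq _ hφ] at h1
  refine rec_mono_left ?_ _ h1
  rintro _ ⟨_, ⟨n, rfl⟩, rfl⟩
  exact ⟨n, rfl⟩

theorem Bd.rect {X Y : Type u} {t : Ordinal.{v}} (ht : t < ω₁) {F : Y → Set X} (h : Bd t F) :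
    Rect F := by
  obtain ⟨B, hB⟩ := h
  exact rect_of_rank t ht _ (fun _ => B) (fun n => rect_const (B n)) _ hB

/-- Under the family property all families with fewer than continuum many members are
rectangular. -/
theorem allRect_of_lt {E : Type u} (hE : #E = 𝔠) (h : FamilyProperty E) {m : Cardinal.{u}}
    (hm : m < 𝔠) : AllRect m := by
  obtain ⟨t, ht, H⟩ := uniform_of_family' hE h hm
  exact fun X Y hX hY F => (H X Y hX hY F).rect ht

/-- The step at cardinals of cofinality above `ℵ₁`. -/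
theorem allRect_of_cof {E : Type u} (hE : #E = 𝔠) (h : FamilyProperty E) {κ : Cardinal.{u}}
    (hcof : ℵ₁ < κ.ord.cof) (h2 : κ ≤ 𝔠) (ih : ∀ μ < κ, AllRect μ) : AllRect κ := by
  classical
  intro X Y hX hY F0
  refine rect_of_embedding (Z := κ.ord.ToType) (by rw [mk_ord_toType]; exact hY) (fun F => ?_) F0
  clear F0 hY
  have hκ : ℵ₀ ≤ κ := (aleph0_le_aleph 1).trans (hcof.le.trans (cof_ord_le κ))
  have hb : ∀ β : κ.ord.ToType, ∃ B : ℕ → Set X, ∃ i : Ordinal.{u}, i < ω₁ ∧
      ∀ a : Iic β, F a ∈ generateMeasurableRec (range B) i := fun β =>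
    Rect.exists_rank.{u, u} (ih _ (mk_Iic_toType hκ β) X (Iic β) hX le_rfl fun a => F a)
  choose B i hi hB using hb
  have hcard : #(κ.ord.ToType × ℕ) ≤ 𝔠 := by
    rw [mk_prod]
    simp only [Cardinal.lift_uzero, mk_nat, lift_aleph0, mk_ord_toType]
    exact mul_le_of_le aleph0_le_continuum h2 aleph0_le_continuum
  obtain ⟨Bs, r, hr, hBs⟩ := exists_rank_of_family hE h hX hcard
    (fun p : κ.ord.ToType × ℕ => B p.1 p.2)
  let t : κ.ord.ToType → Ordinal.{u} := fun β => max (i β) (⨆ n, r (β, n))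
  have ht : ∀ β, t β < ω₁ := fun β => max_lt (hi β) (Ordinal.iSup_lt_omega_one fun n => hr _)
  let s : (ω₁ : Ordinal.{u}).ToType → Set κ.ord.ToType := fun τ => {β | t β = (ToType.toOrd τ).1}
  have hcover : IsCofinal (⋃ τ, s τ) := by
    intro a
    exact ⟨a, mem_iUnion.2 ⟨ToType.mk ⟨t a, ht a⟩, by simp [s]⟩, le_rfl⟩
  obtain ⟨τ, hτ⟩ := isCofinal_of_isCofinal_iUnion hcover (by
    rw [Ordinal.cof_toType]
    simpa using hcof)
  have hex : ∀ a, ∃ b, b ∈ s τ ∧ a ≤ b := fun a => hτ a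
  choose b hb hab using hex
  have ht0 : (ToType.toOrd τ).1 < ω₁ := (ToType.toOrd τ).2
  refine rect_of_rank (ToType.toOrd τ).1 ht0 _ (fun a => B (b a)) (fun n => ?_) _ fun a => ?_
  · refine rect_of_rank (ToType.toOrd τ).1 ht0 _ (fun _ => Bs) (fun m => rect_const (Bs m)) _
      fun a => ?_
    refine generateMeasurableRec_mono _ ?_ (hBs (b a, n))
    have h6 : t (b a) = (ToType.toOrd τ).1 := hb a
    exact le_trans (le_trans (Ordinal.le_iSup (fun n => r (b a, n)) n) (le_max_right _ _)) h6.le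
  · refine generateMeasurableRec_mono _ ?_ (hB (b a) ⟨a, hab a⟩)
    have h6 : t (b a) = (ToType.toOrd τ).1 := hb a
    exact le_trans (le_max_left _ _) h6.le

/-- Under the family property all families with at most continuum many members are rectangular,
unless the continuum is a singular cardinal of cofinality `ℵ₁`. -/
theorem allRect_continuum {E : Type u} (hE : #E = 𝔠) (h : FamilyProperty E)
    (hc : (𝔠 : Cardinal.{u}).ord.cof = ℵ₁ → (𝔠 : Cardinal.{u}) = ℵ₁) : AllRect (𝔠 : Cardinal.{u}) := by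
  rcases eq_or_ne (𝔠 : Cardinal.{u}) ℵ₁ with h1 | h1
  · rw [h1]
    exact allRect_of_ch h1.le
  · have hcof0 : ℵ₀ < (𝔠 : Cardinal.{u}).ord.cof := by
      rw [← two_power_aleph0]
      exact lt_cof_ord_power le_rfl one_lt_two
    have hcof : ℵ₁ < (𝔠 : Cardinal.{u}).ord.cof :=
      lt_of_le_of_ne (aleph_one_le_iff.2 hcof0) fun h2 => h1 (hc h2.symm)
    exact allRect_of_cof hE h hcof le_rfl fun μ hμ => allRect_of_lt hE h hμ

/-- If the continuum is singular, then the rectangularity of all families with fewer than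
continuum many members gives the family property. -/
theorem family_of_lt {E : Type u} (hE : #E = 𝔠) (hc : (𝔠 : Cardinal.{u}).ord.cof < 𝔠)
    (H : ∀ Y : Type u, #Y < 𝔠 → ∀ F : Y → Set E, Rect F) : FamilyProperty E := by
  classical
  intro 𝓗 h𝓗
  rcases 𝓗.eq_empty_or_nonempty with rfl | hne
  · exact ⟨fun _ => ∅, fun T hT => absurd hT (notMem_empty T)⟩
  obtain ⟨S0, rfl⟩ := exists_enum hE 𝓗 h𝓗 hne
  have hequiv : Nonempty ((𝔠 : Cardinal.{u}).ord.ToType ≃ E) := by
    rw [← Cardinal.eq, mk_ord_toType, hE]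
  obtain ⟨e⟩ := hequiv
  obtain ⟨C, hC, hCc⟩ := Order.exists_cof_eq (𝔠 : Cardinal.{u}).ord.ToType
  rw [Ordinal.cof_toType] at hCc
  have hb : ∀ β : (𝔠 : Cardinal.{u}).ord.ToType, ∃ B : ℕ → Set E, ∃ i : Ordinal.{u}, i < ω₁ ∧
      ∀ a : Iic β, S0 (e a) ∈ generateMeasurableRec (range B) i := fun β =>
    Rect.exists_rank.{u, u} (H (Iic β) (mk_Iic_toType aleph0_le_continuum β) fun a => S0 (e a))
  choose B i hi hB using hb
  have hcard : #(C × ℕ) < 𝔠 := by
    rw [mk_prod]
    simp only [Cardinal.lift_uzero, mk_nat, lift_aleph0]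
    exact mul_lt_of_lt aleph0_le_continuum (by rw [hCc]; exact hc) (aleph0_lt_continuum)
  obtain ⟨Bs, j, -, hBs⟩ := Rect.exists_rank.{u, u} (H (C × ℕ) hcard fun p => B p.1 p.2)
  refine ⟨Bs, ?_⟩
  rintro _ ⟨y, rfl⟩
  obtain ⟨β, hβ, hyβ⟩ := hC (e.symm y)
  have h1 := hB β ⟨e.symm y, hyβ⟩
  have h2 := rec_comp (s' := range Bs) (σ := j) (by
    rintro _ ⟨n, rfl⟩
    exact hBs (⟨β, hβ⟩, n)) _ h1
  have h3 := generateMeasurableRec_subset _ _ h2
  simp only [Equiv.apply_symm_apply] at h3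
  exact h3

end Pool.Agent.Lib.MP_17aaef_lc
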