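import Mathlib
import Pool.Agent.Lib.MP_17aaef_lc.Basic

set_option autoImplicit false

namespace Pool.Agent.Lib.MP_17aaef_lc.WellOrderVariant

open Set Cardinal Ordinal MeasureTheory Pool.Agent.Lib.MP_17aaef_lc

universe u v

/-- The sigma-algebra on `X × Y` generated by all abstract rectangles `S × T`. -/
@[reducible] def rectangleAlgebra (X Y : Type u) : MeasurableSpace (X × Y) :=
  MeasurableSpace.generateFrom {W | ∃ (S : Set X) (T : Set Y), W = S ×ˢ T}

theorem measurableSet_prod {X Y : Type u} (S : Set X) (T : Set Y) :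
    MeasurableSet[rectangleAlgebra X Y] (S ×ˢ T) :=
  MeasurableSpace.measurableSet_generateFrom ⟨S, T, rfl⟩

theorem countable_Iio_of_lt {i : Ordinal.{v}} (hi : i < ω₁) : (Iio i).Countable := by
  rw [← Cardinal.le_aleph0_iff_set_countable, Cardinal.mk_Iio_ordinal]
  rw [← Cardinal.lift_aleph0.{v + 1, v}, Cardinal.lift_le]
  rw [← Cardinal.ord_aleph, Cardinal.lt_ord] at hi
  rw [← Cardinal.aleph_zero]
  have : (ℵ_ 1 : Cardinal.{v}) = Order.succ (ℵ_ 0) := by
    rw [Cardinal.succ_aleph]
    simp
  rw [this] at hi
  exact Order.lt_succ_iff.1 hi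

/-- A family of sets of bounded Borel rank over a countable family has its universal set in
the sigma-algebra of abstract rectangles. -/
theorem measurableSet_of_rank {X Y : Type u} (B : ℕ → Set X) (i : Ordinal.{v}) (hi : i < ω₁) :
    ∀ S : Y → Set X, (∀ y, S y ∈ MeasurableSpace.generateMeasurableRec (range B) i) →
      MeasurableSet[rectangleAlgebra X Y] {p : X × Y | p.1 ∈ S p.2} := by
  classical
  induction i using WellFoundedLT.induction with
  | ind i IH =>
  let _ : MeasurableSpace (X × Y) := rectangleAlgebra X Y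
  intro S hS
  have hcount : (Iio i).Countable := countable_Iio_of_lt hi
  -- the vertical strips over subsets of `Y`
  have hstrip : ∀ T : Set Y, MeasurableSet {p : X × Y | p.2 ∈ T} := by
    intro T
    have := measurableSet_prod (X := X) univ T
    convert this using 1
    ext p
    simp
  let P3 : Ordinal.{v} → Y → Prop := fun j y =>
    ∃ U ∈ MeasurableSpace.generateMeasurableRec (range B) j, S y = Uᶜ
  let U : Ordinal.{v} → Y → Set X := fun j y => if h : P3 j y then h.choose else ∅
  have hU : ∀ j y, U j y ∈ MeasurableSpace.generateMeasurableRec (range B) j := by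
    intro j y
    by_cases h : P3 j y
    · simp only [U, dif_pos h]
      exact h.choose_spec.1
    · simp only [U, dif_neg h]
      exact MeasurableSpace.empty_mem_generateMeasurableRec _ _
  have hU' : ∀ j y, P3 j y → S y = (U j y)ᶜ := by
    intro j y h
    simp only [U, dif_pos h]
    exact h.choose_spec.2
  let P4 : Y → Prop := fun y => ∃ f : ℕ → Set X,
    (∀ n, ∃ j < i, f n ∈ MeasurableSpace.generateMeasurableRec (range B) j) ∧ S y = ⋃ n, f n
  let f : Y → ℕ → Set X := fun y => if h : P4 y then h.choose else fun _ => ∅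
  have hf : ∀ y, P4 y →
      (∀ n, ∃ j < i, f y n ∈ MeasurableSpace.generateMeasurableRec (range B) j) ∧
        S y = ⋃ n, f y n := by
    intro y h
    simp only [f, dif_pos h]
    exact h.choose_spec
  let g : ℕ → Ordinal.{v} → Y → Set X := fun n j y =>
    if f y n ∈ MeasurableSpace.generateMeasurableRec (range B) j then f y n else ∅
  have hg : ∀ n j y, g n j y ∈ MeasurableSpace.generateMeasurableRec (range B) j := by
    intro n j y
    by_cases h : f y n ∈ MeasurableSpace.generateMeasurableRec (range B) j
    · simp only [g, if_pos h]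
      exact h
    · simp only [g, if_neg h]
      exact MeasurableSpace.empty_mem_generateMeasurableRec _ _
  have hW : {p : X × Y | p.1 ∈ S p.2} =
      ((⋃ n, B n ×ˢ {y | S y = B n}) ∪
        (⋃ j ∈ Iio i, ({p : X × Y | p.2 ∈ {y | P3 j y}} ∩ {p : X × Y | p.1 ∈ U j p.2}ᶜ))) ∪
        ({p : X × Y | p.2 ∈ {y | P4 y}} ∩
          ⋃ n, ⋃ j ∈ Iio i, {p : X × Y | p.1 ∈ g n j p.2}) := by
    ext ⟨x, y⟩
    constructor
    · intro hx
      change x ∈ S y at hx
      have hSy := hS y
      rw [MeasurableSpace.generateMeasurableRec] at hSy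
      rcases hSy with ((h | h) | h) | h
      · left; left
        obtain ⟨n, hn⟩ := h
        refine mem_iUnion.2 ⟨n, ?_, hn.symm⟩
        change x ∈ B n
        rw [hn]; exact hx
      · rw [mem_singleton_iff] at h
        rw [h] at hx
        exact absurd hx (notMem_empty x)
      · left; right
        obtain ⟨V, hV, hV'⟩ := h
        simp only [mem_iUnion] at hV
        obtain ⟨j, hj, hVj⟩ := hV
        have h3 : P3 j y := ⟨V, hVj, hV'.symm⟩
        refine mem_iUnion₂.2 ⟨j, hj, h3, ?_⟩
        have := hU' j y h3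
        rw [this] at hx
        exact hx
      · right
        obtain ⟨F, hF⟩ := h
        have h4 : P4 y := by
          refine ⟨fun n => (F n).1, fun n => ?_, hF.symm⟩
          have := (F n).2
          simp only [mem_iUnion] at this
          obtain ⟨j, hj, hFj⟩ := this
          exact ⟨j, hj, hFj⟩
        refine ⟨h4, ?_⟩
        obtain ⟨ha, hb⟩ := hf y h4
        rw [hb] at hx
        obtain ⟨n, hn⟩ := mem_iUnion.1 hx
        obtain ⟨j, hj, hj'⟩ := ha n
        refine mem_iUnion.2 ⟨n, mem_iUnion₂.2 ⟨j, hj, ?_⟩⟩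
        change x ∈ g n j y
        simp only [g, if_pos hj']
        exact hn
    · rintro ((h | h) | ⟨h4, h⟩)
      · obtain ⟨n, hn, hn'⟩ := mem_iUnion.1 h
        change x ∈ S y
        have : S y = B n := hn'
        rw [this]; exact hn
      · obtain ⟨j, hj, h3, hx⟩ := mem_iUnion₂.1 h
        change x ∈ S y
        rw [hU' j y h3]
        exact hx
      · obtain ⟨n, hn⟩ := mem_iUnion.1 h
        obtain ⟨j, hj, hx⟩ := mem_iUnion₂.1 hn
        change x ∈ S y
        rw [(hf y h4).2]
        refine mem_iUnion.2 ⟨n, ?_⟩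
        change x ∈ g n j y at hx
        by_cases h : f y n ∈ MeasurableSpace.generateMeasurableRec (range B) j
        · simp only [g, if_pos h] at hx
          exact hx
        · simp only [g, if_neg h] at hx
          exact absurd hx (notMem_empty x)
  rw [hW]
  refine MeasurableSet.union (MeasurableSet.union ?_ ?_) ?_
  · exact MeasurableSet.iUnion fun n => measurableSet_prod _ _
  · refine MeasurableSet.biUnion hcount fun j hj => ?_
    exact (hstrip _).inter (IH j hj (lt_trans hj hi) _ (hU j)).compl
  · refine (hstrip _).inter (MeasurableSet.iUnion fun n => MeasurableSet.biUnion hcount fun j hj => ?_)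
    exact IH j hj (lt_trans hj hi) _ (hg n j)

/-- The family property passes to smaller sets of indices. -/
theorem exists_of_family {E : Type u} (h : FamilyProperty E) {K : Type u} (hK : #K ≤ #E)
    (hE : #E = 𝔠) (S : K → Set K) : ∃ B : ℕ → Set K, ∀ y,
      MeasurableSet[MeasurableSpace.generateFrom (range B)] (S y) := by
  obtain ⟨⟨φ, hφ⟩⟩ := (Cardinal.le_def _ _).1 hK
  obtain ⟨B, hB⟩ := h (range fun y => φ '' S y) (by
    refine mk_range_le.trans ?_
    rw [← hE]; exact hK)
  refine ⟨fun n => φ ⁻¹' B n, fun y => ?_⟩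
  have hmeas : @Measurable K E (MeasurableSpace.generateFrom (range fun n => φ ⁻¹' B n))
      (MeasurableSpace.generateFrom (range B)) φ := by
    refine @measurable_generateFrom _ _ (_) _ _ ?_
    rintro _ ⟨n, rfl⟩
    exact MeasurableSpace.measurableSet_generateFrom ⟨n, rfl⟩
  have := hmeas (hB _ ⟨y, rfl⟩)
  rwa [preimage_image_eq _ hφ] at this

/-- If Ulam's question Q1 has a positive answer, then the well-ordering of every regular cardinal
`κ` with `ℵ₁ < κ ≤ 𝔠` belongs to the sigma-algebra generated by the abstract rectangles of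
`κ × κ`. -/
theorem result (E : Type u) (hE : #E = 𝔠) (hQ : UlamQuestion E) (κ : Cardinal.{u})
    (hκ : κ.IsRegular) (h1 : ℵ₁ < κ) (h2 : κ ≤ 𝔠) :
    MeasurableSet[rectangleAlgebra κ.ord.ToType κ.ord.ToType]
      {p : κ.ord.ToType × κ.ord.ToType | p.1 < p.2} := by
  classical
  have hKcard : #κ.ord.ToType = κ := by simp
  have hcof : Order.cof κ.ord.ToType = κ := by
    rw [Ordinal.cof_toType, hκ.cof_ord]
  have hreg : IsRegularCardinalOrder κ.ord.ToType := by
    constructor
    rw [hcof, Ordinal.type_toType]
  have hfam : FamilyProperty E := family_of_one hE (one_of_question hQ)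
  obtain ⟨B, hB⟩ := exists_of_family hfam (K := κ.ord.ToType) (by rw [hKcard, hE]; exact h2) hE
    (fun y => Iio y)
  -- the Borel rank of the initial segments
  let Y : (ω₁ : Ordinal.{u}).ToType → Set κ.ord.ToType := fun i =>
    {y | Iio y ∈ MeasurableSpace.generateMeasurableRec (range B) (ToType.toOrd i).1}
  have hcover : (⋃ i, Y i) = Set.univ := by
    refine eq_univ_of_forall fun y => ?_
    have h : Iio y ∈ {t | MeasurableSpace.GenerateMeasurable (range B) t} := hB y
    rw [MeasurableSpace.generateMeasurable_eq_rec.{u, u},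
      MeasurableSpace.generateMeasurableRec_omega_one] at h
    obtain ⟨j, hj, hy⟩ := mem_iUnion₂.1 h
    refine mem_iUnion.2 ⟨ToType.mk ⟨j, hj⟩, ?_⟩
    simpa [Y] using hy
  obtain ⟨i, hi⟩ := isCofinal_of_isCofinal_iUnion (s := Y) (by rw [hcover]; exact .univ) (by
    rw [hcof]
    simpa using h1)
  let e := Order.enum (Y i) hi
  have hV := measurableSet_of_rank (X := κ.ord.ToType) (Y := κ.ord.ToType) B (ToType.toOrd i).1
    (ToType.toOrd i).2 (fun y => Iio (e y).1) (fun y => (e y).2)
  -- pull back the rectangles along the order isomorphism with the cofinal set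
  have hmeas : @Measurable _ _ (rectangleAlgebra κ.ord.ToType κ.ord.ToType)
      (rectangleAlgebra κ.ord.ToType κ.ord.ToType)
      (fun p : κ.ord.ToType × κ.ord.ToType => ((e p.1).1, p.2)) := by
    refine @measurable_generateFrom _ _ (_) _ _ ?_
    rintro _ ⟨S, T, rfl⟩
    exact MeasurableSpace.measurableSet_generateFrom ⟨(fun x => (e x).1) ⁻¹' S, T, rfl⟩
  have := hmeas hV
  convert this using 1
  ext ⟨a, b⟩
  simp

end Pool.Agent.Lib.MP_17aaef_lc.WellOrderVariant
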